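import Mathlib

/-!
# Braid words, closed braids, Markov moves and Vassiliev invariants

Shared definitions for the hand-ins of problem `MP_5f6b43_gt`.

Oriented links in `S³` are closed braids up to the Markov moves (Alexander, Markov), and every
singular link is the closure of a singular braid (Birman).  So a rational Vassiliev invariant of
knots of degree `≤ d` is a rational function on braid words which is invariant under the Markov
moves (on words whose closure is a knot) and whose Vassiliev extension vanishes on all singular
braid words with more than `d` double points whose closure is a knot.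
-/

set_option autoImplicit false

namespace Pool.Agent.Helper67.KZ

/-- A braid word on `n + 1` strands: the letter `(i, true)` is the Artin generator `σ_{i+1}`
(crossing of the strands in positions `i`, `i + 1`), the letter `(i, false)` is its inverse. -/
abbrev Word (n : ℕ) := List (Fin n × Bool)

/-- The transposition of the positions `i`, `i + 1`. -/
def tau {n : ℕ} (i : Fin n) : Equiv.Perm (Fin (n + 1)) := Equiv.swap i.castSucc i.succ

/-- The permutation of the strands given by a braid word. -/
def perm {n : ℕ} (w : Word n) : Equiv.Perm (Fin (n + 1)) := (w.map fun a => tau a.1).prod

/-- The closure of the braid is a knot (has one component): the permutation of the strands is a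
cycle through all positions. -/
def IsKnot {n : ℕ} (w : Word n) : Prop := ∀ i j : Fin (n + 1), (perm w).SameCycle i j

/-- The elementary moves between braid words (with any numbers of strands): cancellation of
`σ σ⁻¹` and `σ⁻¹ σ`, the two braid relations, cyclic rotation (conjugation) and
(de)stabilisation.  Two closed braids are isotopic as oriented links in `S³` if and only if their
words are related by finitely many such moves and their inverses. -/
inductive Markov : (n : ℕ) → Word n → (m : ℕ) → Word m → Prop
  | cancel (n : ℕ) (u v : Word n) (i : Fin n) (b : Bool) :
      Markov n (u ++ [(i, b), (i, !b)] ++ v) n (u ++ v)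
  | comm (n : ℕ) (u v : Word n) (i j : Fin n) (b c : Bool) (h : i.val + 1 < j.val) :
      Markov n (u ++ [(i, b), (j, c)] ++ v) n (u ++ [(j, c), (i, b)] ++ v)
  | braid (n : ℕ) (u v : Word n) (i j : Fin n) (h : i.val + 1 = j.val) :
      Markov n (u ++ [(i, true), (j, true), (i, true)] ++ v) n
        (u ++ [(j, true), (i, true), (j, true)] ++ v)
  | conj (n : ℕ) (u v : Word n) : Markov n (u ++ v) n (v ++ u)
  | stab (n : ℕ) (w : Word n) (b : Bool) :
      Markov n w (n + 1) (w.map (fun a => (a.1.castSucc, a.2)) ++ [(Fin.last n, b)])

/-- Singular braid words: the letter `(i, some b)` is the letter `(i, b)`, the letter `(i, none)`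
is a double point of the strands in positions `i`, `i + 1`. -/
abbrev SWord (n : ℕ) := List (Fin n × Option Bool)

/-- The closure of the singular braid is a singular knot (has one component). -/
def SIsKnot {n : ℕ} (x : SWord n) : Prop :=
  ∀ i j : Fin (n + 1), ((x.map fun a => tau a.1).prod).SameCycle i j

/-- The number of double points. -/
def doublePoints {n : ℕ} (x : SWord n) : ℕ := x.countP fun a => a.2.isNone

/-- The Vassiliev extension of a function of braid words to singular braid words: a double point
is replaced by the positive crossing minus the negative crossing. -/
def ext {n : ℕ} (v : Word n → ℚ) : SWord n → ℚ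
  | [] => v []
  | (i, some b) :: x => ext (fun w => v ((i, b) :: w)) x
  | (i, none) :: x =>
      ext (fun w => v ((i, true) :: w)) x - ext (fun w => v ((i, false) :: w)) x

/-- `v` is a rational Vassiliev invariant of oriented knots of degree at most `d`. -/
structure IsVassiliev (d : ℕ) (v : (n : ℕ) → Word n → ℚ) : Prop where
  /-- invariance under isotopy of knots -/
  markov : ∀ (n m : ℕ) (w : Word n) (w' : Word m), Markov n w m w' → IsKnot w → v n w = v m w'
  /-- vanishing on singular knots with more than `d` double points -/
  finite_type : ∀ (n : ℕ) (x : SWord n), SIsKnot x → d < doublePoints x → ext (v n) x = 0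

/-- The closures of `w` and `w'` have the same rational Vassiliev invariants of degree `≤ d`. -/
def Agree (d : ℕ) {n m : ℕ} (w : Word n) (w' : Word m) : Prop :=
  ∀ v : (n : ℕ) → Word n → ℚ, IsVassiliev d v → v n w = v m w'

/-- The closures of `w` and `w'` have the same rational Vassiliev invariants (of all degrees),
that is, the same Kontsevich invariant `Z`. -/
def SameZ {n m : ℕ} (w : Word n) (w' : Word m) : Prop := ∀ d : ℕ, Agree d w w'

end Pool.Agent.Helper67.KZ
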