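import Mathlib

/-!
# Module C: two orders of a pair of transpositions against a full cycle

Multiplying a full cycle by the two 3-cycles on three given points gives permutations with a
different number of invariant colourings by two colours (one product is again a full cycle, the
other has three cycles).
-/

set_option autoImplicit false

namespace Pool.Agent.Helper67.KZ

open Equiv

private theorem const_run {y : ℕ → Bool} {s t : ℕ}
    (h : ∀ k, s ≤ k → k < t → y (k + 1) = y k) : ∀ k, s ≤ k → k ≤ t → y k = y s := by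
  intro k hk
  induction k, hk using Nat.le_induction with
  | base => intro _; rfl
  | succ k hk ih =>
    intro hkt
    rw [h k hk (by omega), ih (by omega)]

private theorem key {n : ℕ} (σ : Perm (Fin (n + 1)))
    (h : ∀ i j : Fin (n + 1), σ.SameCycle i j) (a : Fin (n + 1)) (p q : ℕ)
    (hp : 0 < p) (hpq : p < q) (hq : q < n + 1) :
    Fintype.card {y : Fin (n + 1) → Bool //
      y ∘ (σ * (swap a ((σ ^ p) a) * swap ((σ ^ p) a) ((σ ^ q) a))) = y} <
    Fintype.card {y : Fin (n + 1) → Bool //
      y ∘ (σ * (swap ((σ ^ p) a) ((σ ^ q) a) * swap a ((σ ^ p) a))) = y} := by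
  classical
  have hcyc : σ.IsCycleOn ((Finset.univ : Finset (Fin (n + 1))) : Set (Fin (n + 1))) := by
    refine ⟨?_, fun x _ z _ => h x z⟩
    simp
  have hN : (Finset.univ : Finset (Fin (n + 1))).card = n + 1 := by simp
  have hinj : ∀ k m : ℕ, (σ ^ k) a = (σ ^ m) a ↔ k ≡ m [MOD (n + 1)] := by
    intro k m
    have := hcyc.pow_apply_eq_pow_apply (Finset.mem_univ a) (m := k) (n := m)
    rwa [hN] at this
  have hinj' : ∀ k m : ℕ, k < n + 1 → m < n + 1 → (σ ^ k) a = (σ ^ m) a → k = m := by
    intro k m hk hm hkm
    have := (hinj k m).1 hkm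
    exact Nat.ModEq.eq_of_lt_of_lt this hk hm
  have hsurj : ∀ x, ∃ k, k < n + 1 ∧ (σ ^ k) a = x := by
    intro x
    obtain ⟨k, hk, hk'⟩ := hcyc.exists_pow_eq (Finset.mem_univ a) (Finset.mem_univ x)
    exact ⟨k, by rwa [hN] at hk, hk'⟩
  have hwrap : (σ ^ (n + 1)) a = a := by
    have := (hinj (n + 1) 0).2 (by simp [Nat.ModEq])
    simpa using this
  have hstep : ∀ k, σ ((σ ^ k) a) = (σ ^ (k + 1)) a := by
    intro k
    rw [pow_succ', Perm.mul_apply]
  set b := (σ ^ p) a with hb
  set c := (σ ^ q) a with hc
  have hab : a ≠ b := by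
    intro hh
    have := hinj' 0 p (by omega) (by omega) (by simpa [hb] using hh)
    omega
  have hac : a ≠ c := by
    intro hh
    have := hinj' 0 q (by omega) (by omega) (by simpa [hc] using hh)
    omega
  have hbc : b ≠ c := by
    intro hh
    have := hinj' p q (by omega) (by omega) hh
    omega
  have hoff : ∀ k, k < n + 1 → k ≠ 0 → k ≠ p → k ≠ q →
      (σ ^ k) a ≠ a ∧ (σ ^ k) a ≠ b ∧ (σ ^ k) a ≠ c := by
    intro k hk h0 h1 h2
    refine ⟨fun hh => h0 (hinj' k 0 hk (by omega) (by simpa using hh)),
      fun hh => h1 (hinj' k p hk (by omega) hh), fun hh => h2 (hinj' k q hk (by omega) hh)⟩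
  -- at most two solutions for the first product
  have hA : ∀ y : Fin (n + 1) → Bool, y ∘ (σ * (swap a b * swap b c)) = y → ∀ x, y x = y a := by
    intro y hy
    have e1 : y (σ b) = y a := by
      have := congrFun hy a
      simpa [swap_apply_of_ne_of_ne hab hac] using this
    have e2 : y (σ c) = y b := by
      have := congrFun hy b
      simpa [swap_apply_of_ne_of_ne hac.symm hbc.symm] using this
    have e3 : y (σ a) = y c := by
      have := congrFun hy c
      simpa using this
    have e4 : ∀ k, k < n + 1 → k ≠ 0 → k ≠ p → k ≠ q →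
        y ((σ ^ (k + 1)) a) = y ((σ ^ k) a) := by
      intro k hk h0 h1 h2
      obtain ⟨g1, g2, g3⟩ := hoff k hk h0 h1 h2
      have := congrFun hy ((σ ^ k) a)
      simp only [Function.comp_apply, Perm.mul_apply, swap_apply_of_ne_of_ne g2 g3,
        swap_apply_of_ne_of_ne g1 g2, hstep] at this
      exact this
    have r1 := const_run (y := fun k => y ((σ ^ k) a)) (s := 1) (t := p)
      (fun k h1 h2 => e4 k (by omega) (by omega) (by omega) (by omega))
    have r2 := const_run (y := fun k => y ((σ ^ k) a)) (s := p + 1) (t := q)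
      (fun k h1 h2 => e4 k (by omega) (by omega) (by omega) (by omega))
    have r3 := const_run (y := fun k => y ((σ ^ k) a)) (s := q + 1) (t := n + 1)
      (fun k h1 h2 => e4 k (by omega) (by omega) (by omega) (by omega))
    simp only [← hstep] at e4
    have s1 : y b = y (σ a) := by
      have := r1 p (by omega) le_rfl
      simpa [hb] using this
    have s2 : y c = y (σ b) := by
      have := r2 q (by omega) le_rfl
      simpa [← hstep p, ← hb, ← hc] using this
    have s3 : y a = y (σ c) := by
      have := r3 (n + 1) (by omega) le_rfl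
      simpa [hwrap, ← hstep q, ← hc] using this
    intro x
    obtain ⟨k, hk, rfl⟩ := hsurj x
    rcases Nat.eq_zero_or_pos k with rfl | hk0
    · simp
    rcases Nat.lt_or_ge p k with hpk | hpk
    · rcases Nat.lt_or_ge q k with hqk | hqk
      · have := r3 k (by omega) (by omega)
        rw [this, ← hstep q, ← hc, ← s3]
      · have := r2 k (by omega) (by omega)
        rw [this, ← hstep p, ← hb, e1]
    · have := r1 k (by omega) (by omega)
      rw [this, pow_one, e3, s2, e1]
  -- three solutions for the second product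
  let w : Fin (n + 1) → Bool := fun x => decide (∃ k, 0 < k ∧ k ≤ p ∧ (σ ^ k) a = x)
  have hw : ∀ k, k < n + 1 → (w ((σ ^ k) a) = true ↔ (0 < k ∧ k ≤ p)) := by
    intro k hk
    simp only [w, decide_eq_true_eq]
    constructor
    · rintro ⟨j, hj0, hjp, hj⟩
      have := hinj' j k (by omega) hk hj
      omega
    · intro hh
      exact ⟨k, hh.1, hh.2, rfl⟩
  have hwa : w a = false := by
    have := hw 0 (by omega)
    simp only [pow_zero, Perm.one_apply] at this
    by_contra hh
    have := this.1 (by simpa using hh)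
    omega
  have hw' : ∀ k, k < n + 1 → (w ((σ ^ (k + 1)) a) = true ↔ (k + 1 ≤ p)) := by
    intro k hk
    rcases Nat.lt_or_ge (k + 1) (n + 1) with h1 | h1
    · rw [hw (k + 1) h1]
      omega
    · have : k + 1 = n + 1 := by omega
      rw [this, hwrap, hwa]
      constructor
      · intro hh
        exact absurd hh (by simp)
      · intro hh
        omega
  have hwf : w ∘ (σ * (swap b c * swap a b)) = w := by
    funext x
    obtain ⟨k, hk, rfl⟩ := hsurj x
    have key2 : ∀ u v : Bool, (u = true ↔ v = true) → u = v := by decide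
    apply key2
    rw [hw k hk]
    by_cases h0 : k = 0
    · subst h0
      have : (σ * (swap b c * swap a b)) ((σ ^ 0) a) = (σ ^ (q + 1)) a := by
        simp [← hstep q, ← hc]
      rw [Function.comp_apply, this, hw' q hq]
      omega
    by_cases h1 : k = p
    · subst h1
      have : (σ * (swap b c * swap a b)) ((σ ^ k) a) = (σ ^ (0 + 1)) a := by
        rw [← hb, ← hstep 0]
        simp [swap_apply_of_ne_of_ne hab hac]
      rw [Function.comp_apply, this, hw' 0 (by omega)]
      omega
    by_cases h2 : k = q
    · subst h2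
      have : (σ * (swap b c * swap a b)) ((σ ^ k) a) = (σ ^ (p + 1)) a := by
        rw [← hc, ← hstep p, ← hb]
        simp [swap_apply_of_ne_of_ne hac.symm hbc.symm]
      rw [Function.comp_apply, this, hw' p (by omega)]
      omega
    · obtain ⟨g1, g2, g3⟩ := hoff k hk h0 h1 h2
      have : (σ * (swap b c * swap a b)) ((σ ^ k) a) = (σ ^ (k + 1)) a := by
        rw [← hstep k]
        simp only [Perm.mul_apply, swap_apply_of_ne_of_ne g1 g2, swap_apply_of_ne_of_ne g2 g3]
      rw [Function.comp_apply, this, hw' k hk]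
      omega
  -- counting
  have hle : Fintype.card {y : Fin (n + 1) → Bool // y ∘ (σ * (swap a b * swap b c)) = y} ≤ 2 := by
    rw [← Fintype.card_bool]
    refine Fintype.card_le_of_injective (fun y => y.1 a) ?_
    rintro ⟨y, hy⟩ ⟨z, hz⟩ hyz
    apply Subtype.ext
    funext x
    change y a = z a at hyz
    change y x = z x
    rw [hA y hy x, hA z hz x, hyz]
  have hlt : 2 < Fintype.card {y : Fin (n + 1) → Bool // y ∘ (σ * (swap b c * swap a b)) = y} := by
    rw [Fintype.two_lt_card_iff]
    refine ⟨⟨w, hwf⟩, ⟨fun _ => true, by funext x; rfl⟩, ⟨fun _ => false, by funext x; rfl⟩,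
      ?_, ?_, ?_⟩
    · intro hh
      have := congrFun (congrArg Subtype.val hh) a
      simp [hwa] at this
    · intro hh
      have := congrFun (congrArg Subtype.val hh) b
      simp only at this
      have h3 := (hw p (by omega)).2 ⟨hp, le_rfl⟩
      rw [← hb, this] at h3
      exact absurd h3 (by simp)
    · intro hh
      have := congrFun (congrArg Subtype.val hh) a
      simp at this
  omega

/-- MODULE C (cycles). -/
theorem fix_ne {n : ℕ} (σ : Equiv.Perm (Fin (n + 1)))
    (h : ∀ i j : Fin (n + 1), σ.SameCycle i j) (a b c : Fin (n + 1))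
    (hab : a ≠ b) (hbc : b ≠ c) (hac : a ≠ c) :
    Fintype.card {y : Fin (n + 1) → Bool // y ∘ (σ * (Equiv.swap a b * Equiv.swap b c)) = y} ≠
    Fintype.card {y : Fin (n + 1) → Bool // y ∘ (σ * (Equiv.swap b c * Equiv.swap a b)) = y} := by
  have hcyc : σ.IsCycleOn ((Finset.univ : Finset (Fin (n + 1))) : Set (Fin (n + 1))) := by
    refine ⟨?_, fun x _ z _ => h x z⟩
    simp
  have hN : (Finset.univ : Finset (Fin (n + 1))).card = n + 1 := by simp
  obtain ⟨p, hp, rfl⟩ := hcyc.exists_pow_eq (Finset.mem_univ a) (Finset.mem_univ b)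
  obtain ⟨q, hq, rfl⟩ := hcyc.exists_pow_eq (Finset.mem_univ a) (Finset.mem_univ c)
  rw [hN] at hp hq
  have hp0 : 0 < p := by
    rcases Nat.eq_zero_or_pos p with rfl | h0
    · exact absurd rfl hab
    · exact h0
  have hq0 : 0 < q := by
    rcases Nat.eq_zero_or_pos q with rfl | h0
    · exact absurd rfl hac
    · exact h0
  rcases lt_trichotomy p q with h1 | h1 | h1
  · exact (key σ h a p q hp0 h1 hq).ne
  · subst h1
    exact absurd rfl hbc
  · have := key σ h a q p hq0 h1 hp
    have e1 : swap a ((σ ^ q) a) * swap ((σ ^ q) a) ((σ ^ p) a) =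
        swap ((σ ^ p) a) ((σ ^ q) a) * swap a ((σ ^ p) a) := by
      rw [swap_comm ((σ ^ q) a) ((σ ^ p) a)]
      rw [swap_mul_eq_mul_swap]
      simp [swap_apply_of_ne_of_ne hab hac]
    have e2 : swap ((σ ^ q) a) ((σ ^ p) a) * swap a ((σ ^ q) a) =
        swap a ((σ ^ p) a) * swap ((σ ^ p) a) ((σ ^ q) a) := by
      have := congrArg (fun g => g⁻¹) e1
      simpa [mul_inv_rev] using this
    rw [e1, e2] at this
    exact this.ne'

end Pool.Agent.Helper67.KZ
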