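import Mathlib
import Pool.Agent.Helper67.KZ.Defs

set_option autoImplicit false

namespace Pool.Agent.Helper67.KZ

lemma perm_append {n : ℕ} (u v : Word n) : perm (u ++ v) = perm u * perm v := by
  simp [perm]

lemma sign_tau {n : ℕ} (i : Fin n) : Equiv.Perm.sign (tau i) = -1 :=
  Equiv.Perm.sign_swap (Fin.castSucc_lt_succ (i := i)).ne

lemma sign_perm {n : ℕ} (w : Word n) : Equiv.Perm.sign (perm w) = (-1) ^ w.length := by
  induction w with
  | nil => simp [perm]
  | cons a w ih =>
    have : perm (a :: w) = tau a.1 * perm w := by simp [perm]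
    rw [this, Equiv.Perm.sign_mul, sign_tau, ih, List.length_cons, pow_succ']

lemma exists_word {n : ℕ} (g : Equiv.Perm (Fin (n + 1))) : ∃ w : Word n, perm w = g := by
  have h : g ∈ Submonoid.closure (Set.range fun i : Fin n => Equiv.swap i.castSucc i.succ) := by
    rw [Equiv.Perm.mclosure_swap_castSucc_succ]; trivial
  induction h using Submonoid.closure_induction with
  | mem x hx =>
    obtain ⟨i, rfl⟩ := hx
    exact ⟨[(i, true)], by simp [perm, tau]⟩
  | one => exact ⟨[], by simp [perm]⟩
  | mul x y _ _ hx hy =>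
    obtain ⟨u, rfl⟩ := hx
    obtain ⟨v, rfl⟩ := hy
    exact ⟨u ++ v, perm_append u v⟩

lemma exists_word_len (n : ℕ) (hn : 0 < n) : ∃ L : ℕ, ∀ g : Equiv.Perm (Fin (n + 1)),
    Equiv.Perm.sign g = 1 → ∃ w : Word n, w.length = 2 * L ∧ perm w = g := by
  choose W hW using fun g : Equiv.Perm (Fin (n + 1)) => exists_word g
  refine ⟨Finset.univ.sup fun g => (W g).length, fun g hg => ?_⟩
  have hle : (W g).length ≤ Finset.univ.sup fun g => (W g).length :=
    Finset.le_sup (f := fun g => (W g).length) (Finset.mem_univ g)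
  set L := Finset.univ.sup fun g => (W g).length
  have heven : Even (W g).length := by
    have h1 := sign_perm (W g)
    rw [hW g, hg] at h1
    rcases Nat.even_or_odd (W g).length with h2 | h2
    · exact h2
    · rw [h2.neg_one_pow] at h1
      exact absurd h1 (by decide)
  obtain ⟨m, hm⟩ := heven
  let i : Fin n := ⟨0, hn⟩
  refine ⟨W g ++ List.replicate (2 * (L - m)) (i, true), ?_, ?_⟩
  · rw [List.length_append, List.length_replicate]
    omega
  · rw [perm_append, hW g]
    have : perm (List.replicate (2 * (L - m)) (i, true)) = 1 := by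
      simp only [perm, List.map_replicate, List.prod_replicate]
      rw [pow_mul, pow_two, tau, Equiv.swap_mul_self, one_pow]
    rw [this, mul_one]

/-- MODULE K (a positive proportion of the words close up to knots, if there is any). -/
theorem knot_count (n : ℕ) : ∃ c : ℝ, 0 < c ∧ ∀ N : ℕ,
    (∃ w : Fin N → Fin n × Bool, IsKnot (List.ofFn w)) →
      c * (2 * n : ℝ) ^ N ≤ ({w : Fin N → Fin n × Bool | IsKnot (List.ofFn w)}.ncard : ℝ) := by
  rcases Nat.eq_zero_or_pos n with rfl | hn
  · refine ⟨1, one_pos, fun N ⟨w, hw⟩ => ?_⟩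
    have h1 : 0 < {w : Fin N → Fin 0 × Bool | IsKnot (List.ofFn w)}.ncard :=
      (Set.ncard_pos (Set.toFinite _)).2 ⟨w, hw⟩
    have h2 : (1 : ℝ) ≤ ({w : Fin N → Fin 0 × Bool | IsKnot (List.ofFn w)}.ncard : ℝ) := by
      exact_mod_cast h1
    refine le_trans ?_ h2
    simp only [Nat.cast_zero, mul_zero, one_mul]
    exact pow_le_one₀ le_rfl zero_le_one
  · obtain ⟨L, hL⟩ := exists_word_len n hn
    have hn1 : (1 : ℝ) ≤ n := by exact_mod_cast hn
    have h2n : (0 : ℝ) < 2 * n := by positivity
    have h2n1 : (1 : ℝ) ≤ 2 * n := by linarith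
    refine ⟨((2 * n : ℝ) ^ (2 * L))⁻¹, by positivity, fun N ⟨w, hw⟩ => ?_⟩
    rcases lt_or_ge N (2 * L) with hN | hN
    · have h1 : 0 < {w : Fin N → Fin n × Bool | IsKnot (List.ofFn w)}.ncard :=
        (Set.ncard_pos (Set.toFinite _)).2 ⟨w, hw⟩
      have h2 : (1 : ℝ) ≤ ({w : Fin N → Fin n × Bool | IsKnot (List.ofFn w)}.ncard : ℝ) := by
        exact_mod_cast h1
      refine le_trans ?_ h2
      rw [inv_mul_le_iff₀ (by positivity), mul_one]
      exact pow_le_pow_right₀ h2n1 hN.le
    · obtain ⟨M, rfl⟩ : ∃ M, N = M + 2 * L := ⟨N - 2 * L, by omega⟩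
      have key : ∀ u : Fin M → Fin n × Bool, ∃ v : Fin (2 * L) → Fin n × Bool,
          IsKnot (List.ofFn (Fin.append u v)) := by
        intro u
        have hs : Equiv.Perm.sign ((perm (List.ofFn u))⁻¹ * perm (List.ofFn w)) = 1 := by
          rw [Equiv.Perm.sign_mul, Equiv.Perm.sign_inv, sign_perm, sign_perm, List.length_ofFn,
            List.length_ofFn, ← pow_add]
          have : Even (M + (M + 2 * L)) := ⟨M + L, by ring⟩
          exact this.neg_one_pow
        obtain ⟨v, hv1, hv2⟩ := hL _ hs
        refine ⟨fun j => v.get (j.cast hv1.symm), ?_⟩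
        have hv3 : List.ofFn (fun j : Fin (2 * L) => v.get (j.cast hv1.symm)) = v := by
          apply List.ext_get
          · simp [hv1]
          · intro k h1 h2
            simp
        rw [List.ofFn_fin_append, hv3]
        have h3 : perm (List.ofFn u ++ v) = perm (List.ofFn w) := by
          rw [perm_append, hv2, mul_inv_cancel_left]
        intro i j
        rw [h3]
        exact hw i j
      choose V hV using key
      have hinj : Function.Injective fun u : Fin M → Fin n × Bool => Fin.append u (V u) := by
        intro u u' h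
        funext j
        have := congrFun h (Fin.castAdd _ j)
        simpa using this
      have hcard : (Set.range fun u : Fin M → Fin n × Bool => Fin.append u (V u)).ncard ≤
          {w : Fin (M + 2 * L) → Fin n × Bool | IsKnot (List.ofFn w)}.ncard := by
        apply Set.ncard_le_ncard _ (Set.toFinite _)
        rintro _ ⟨u, rfl⟩
        exact hV u
      have hcard2 : (Set.range fun u : Fin M → Fin n × Bool => Fin.append u (V u)).ncard =
          (2 * n) ^ M := by
        rw [← Set.image_univ, Set.ncard_image_of_injective _ hinj, Set.ncard_univ,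
          Nat.card_eq_fintype_card]
        simp [mul_comm]
      rw [hcard2] at hcard
      have h4 : ((2 * n : ℝ)) ^ M ≤
          ({w : Fin (M + 2 * L) → Fin n × Bool | IsKnot (List.ofFn w)}.ncard : ℝ) := by
        exact_mod_cast hcard
      refine le_trans (le_of_eq ?_) h4
      rw [pow_add]
      field_simp

end Pool.Agent.Helper67.KZ
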