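import Mathlib
import Pool.Agent.Helper67.KZ.Defs

/-!
# The Jones invariant of closed braids from an R-matrix over `ℚ⟦X⟧`, `q = 1 + X`
-/

set_option autoImplicit false

namespace Pool.Agent.Helper67.KZ

open PowerSeries

/-- The coefficient ring. -/
abbrev A := PowerSeries ℚ
/-- Basis states. -/
abbrev State (n : ℕ) := Fin (n + 1) → Bool
/-- Functions on states. -/
abbrev Fn (n : ℕ) := State n → A
/-- Operators. -/
abbrev Op (n : ℕ) := Module.End A (Fn n)

/-- `q = 1 + X`. -/
noncomputable def q : A := 1 + X
/-- `q⁻¹`. -/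
noncomputable def qi : A := q⁻¹

lemma q_mul_qi : q * qi = 1 := PowerSeries.mul_inv_cancel _ (by simp [q])

lemma qi_mul_q : qi * q = 1 := by rw [mul_comm, q_mul_qi]

lemma tau_castSucc {n : ℕ} (i : Fin n) : tau i i.castSucc = i.succ := by simp [tau]
lemma tau_succ {n : ℕ} (i : Fin n) : tau i i.succ = i.castSucc := by simp [tau]
lemma tau_of_ne {n : ℕ} (i : Fin n) {k : Fin (n + 1)} (h : k ≠ i.castSucc) (h' : k ≠ i.succ) :
    tau i k = k := Equiv.swap_apply_of_ne_of_ne h h'
lemma tau_mul_tau {n : ℕ} (i : Fin n) : tau i * tau i = 1 := by simp [tau]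
lemma tau_tau {n : ℕ} (i : Fin n) (k : Fin (n + 1)) : tau i (tau i k) = k := by simp [tau]

lemma comp_tau_tau {n : ℕ} (i : Fin n) (y : State n) : (y ∘ tau i) ∘ tau i = y := by
  funext k; simp [tau_tau]

/-- The R-matrix acting in positions `i`, `i + 1`. -/
noncomputable def R {n : ℕ} (i : Fin n) : Op n where
  toFun f := fun y => if y i.castSucc = y i.succ then q * f y
    else f (y ∘ tau i) + (if y i.castSucc then (q - qi) * f y else 0)
  map_add' f g := by
    funext y
    simp only [Pi.add_apply]
    split_ifs <;> ring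
  map_smul' c f := by
    funext y
    simp only [Pi.smul_apply, smul_eq_mul, RingHom.id_apply]
    split_ifs <;> ring

lemma R_apply {n : ℕ} (i : Fin n) (f : Fn n) (y : State n) :
    R i f y = if y i.castSucc = y i.succ then q * f y
      else f (y ∘ tau i) + (if y i.castSucc then (q - qi) * f y else 0) := rfl

lemma R_sq {n : ℕ} (i : Fin n) : R i * R i = (q - qi) • R i + 1 := by
  refine LinearMap.ext fun f => ?_
  funext y
  have hq := q_mul_qi
  simp only [Module.End.mul_apply, LinearMap.add_apply, LinearMap.smul_apply, Pi.add_apply,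
    Pi.smul_apply, smul_eq_mul, Module.End.one_apply]
  by_cases h : y i.castSucc = y i.succ
  · simp only [R_apply, h, if_true]
    linear_combination (f y) * hq
  · have h' : ¬ ((y ∘ tau i) i.castSucc = (y ∘ tau i) i.succ) := by
      simp only [Function.comp, tau_castSucc, tau_succ]
      exact fun e => h e.symm
    rw [R_apply i (R i f) y, if_neg h, R_apply i f (y ∘ tau i), if_neg h', comp_tau_tau]
    have e1 : (y ∘ tau i) i.castSucc = y i.succ := by simp [tau_castSucc]
    rw [e1, R_apply i f y, if_neg h]
    rcases hc : y i.castSucc with _ | _ <;> rcases hs : y i.succ with _ | _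
    · exact absurd (hc.trans hs.symm) h
    · simp; ring
    · simp; ring
    · exact absurd (hc.trans hs.symm) h

/-- The inverse R-matrix. -/
noncomputable def Ri {n : ℕ} (i : Fin n) : Op n := R i - (q - qi) • 1

lemma R_mul_Ri {n : ℕ} (i : Fin n) : R i * Ri i = 1 := by
  rw [Ri, mul_sub, R_sq, mul_smul_comm, mul_one]
  abel

lemma Ri_mul_R {n : ℕ} (i : Fin n) : Ri i * R i = 1 := by
  rw [Ri, sub_mul, R_sq, smul_mul_assoc, one_mul]
  abel

/-! ### Braid relations -/

section braid

variable {n : ℕ} (i j : Fin n) (h : i.val + 1 = j.val)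

lemma succ_eq (h : i.val + 1 = j.val) : i.succ = j.castSucc := by
  ext; simp [h]

/-- The state with prescribed values at three positions. -/
def st (y : State n) (a b c : Bool) : State n :=
  Function.update (Function.update (Function.update y i.castSucc a) j.castSucc b) j.succ c

lemma ne01 (h : i.val + 1 = j.val) : i.castSucc ≠ j.castSucc := by
  intro e; have := congrArg Fin.val e; simp at this; omega
lemma ne02 (h : i.val + 1 = j.val) : i.castSucc ≠ j.succ := by
  intro e; have := congrArg Fin.val e; simp at this; omega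
lemma ne12 : j.castSucc ≠ j.succ := by
  intro e; have := congrArg Fin.val e; simp at this

lemma st_0 (h : i.val + 1 = j.val) (y : State n) (a b c : Bool) :
    st i j y a b c i.castSucc = a := by
  rw [st, Function.update_of_ne (ne02 i j h), Function.update_of_ne (ne01 i j h),
    Function.update_self]

lemma st_1 (y : State n) (a b c : Bool) : st i j y a b c j.castSucc = b := by
  rw [st, Function.update_of_ne (ne12 j), Function.update_self]

lemma st_2 (y : State n) (a b c : Bool) : st i j y a b c j.succ = c := by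
  rw [st, Function.update_self]

lemma st_ne (y : State n) (a b c : Bool) {k : Fin (n + 1)} (h0 : k ≠ i.castSucc)
    (h1 : k ≠ j.castSucc) (h2 : k ≠ j.succ) : st i j y a b c k = y k := by
  rw [st, Function.update_of_ne h2, Function.update_of_ne h1, Function.update_of_ne h0]

lemma st_self (h : i.val + 1 = j.val) (y : State n) :
    st i j y (y i.castSucc) (y j.castSucc) (y j.succ) = y := by
  funext k
  by_cases h0 : k = i.castSucc
  · subst h0; rw [st_0 i j h]
  by_cases h1 : k = j.castSucc
  · subst h1; rw [st_1]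
  by_cases h2 : k = j.succ
  · subst h2; rw [st_2]
  exact st_ne i j y _ _ _ h0 h1 h2

lemma st_comp_i (h : i.val + 1 = j.val) (y : State n) (a b c : Bool) :
    st i j y a b c ∘ tau i = st i j y b a c := by
  have hs := succ_eq i j h
  funext k
  simp only [Function.comp]
  by_cases h0 : k = i.castSucc
  · subst h0; rw [tau_castSucc, hs, st_1, st_0 i j h]
  by_cases h1 : k = j.castSucc
  · subst h1; rw [← hs, tau_succ, hs, st_1, st_0 i j h]
  rw [tau_of_ne i h0 (by rw [hs]; exact h1)]
  by_cases h2 : k = j.succ
  · subst h2; rw [st_2, st_2]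
  rw [st_ne i j y _ _ _ h0 h1 h2, st_ne i j y _ _ _ h0 h1 h2]

lemma st_comp_j (h : i.val + 1 = j.val) (y : State n) (a b c : Bool) :
    st i j y a b c ∘ tau j = st i j y a c b := by
  funext k
  simp only [Function.comp]
  by_cases h1 : k = j.castSucc
  · subst h1; rw [tau_castSucc, st_2, st_1]
  by_cases h2 : k = j.succ
  · subst h2; rw [tau_succ, st_2, st_1]
  rw [tau_of_ne j h1 h2]
  by_cases h0 : k = i.castSucc
  · subst h0; rw [st_0 i j h, st_0 i j h]
  rw [st_ne i j y _ _ _ h0 h1 h2, st_ne i j y _ _ _ h0 h1 h2]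

lemma R_st_i (h : i.val + 1 = j.val) (f : Fn n) (y : State n) (a b c : Bool) :
    R i f (st i j y a b c) = if a = b then q * f (st i j y a b c)
      else f (st i j y b a c) + (if a then (q - qi) * f (st i j y a b c) else 0) := by
  rw [R_apply, st_comp_i i j h, succ_eq i j h, st_0 i j h, st_1]

lemma R_st_j (h : i.val + 1 = j.val) (f : Fn n) (y : State n) (a b c : Bool) :
    R j f (st i j y a b c) = if b = c then q * f (st i j y a b c)
      else f (st i j y a c b) + (if b then (q - qi) * f (st i j y a b c) else 0) := by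
  rw [R_apply, st_comp_j i j h, st_1, st_2]

lemma R_braid (h : i.val + 1 = j.val) : R i * R j * R i = R j * R i * R j := by
  refine LinearMap.ext fun f => ?_
  funext y
  rw [← st_self i j h y]
  have hq := q_mul_qi
  generalize y i.castSucc = a
  generalize y j.castSucc = b
  generalize y j.succ = c
  simp only [Module.End.mul_apply]
  cases a <;> cases b <;> cases c <;>
    simp [R_st_i i j h, R_st_j i j h] <;>
    first
      | ring1
      | linear_combination (f (st i j y true false false)) * (qi - q) * hq
      | linear_combination (f (st i j y true true false)) * (q - qi) * hq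

end braid


lemma R_comm {n : ℕ} (i j : Fin n) (h : i.val + 1 < j.val) : R i * R j = R j * R i := by
  have h00 : i.castSucc ≠ j.castSucc := by
    intro e; have := congrArg Fin.val e; simp at this; omega
  have h01 : i.castSucc ≠ j.succ := by
    intro e; have := congrArg Fin.val e; simp at this; omega
  have h10 : i.succ ≠ j.castSucc := by
    intro e; have := congrArg Fin.val e; simp at this; omega
  have h11 : i.succ ≠ j.succ := by
    intro e; have := congrArg Fin.val e; simp at this; omega
  have hcomm : ∀ y : State n, (y ∘ tau i) ∘ tau j = (y ∘ tau j) ∘ tau i := by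
    intro y
    funext k
    simp only [Function.comp]
    congr 1
    by_cases k0 : k = i.castSucc
    · subst k0; rw [tau_castSucc, tau_of_ne j h00 h01, tau_castSucc, tau_of_ne j h10 h11]
    by_cases k1 : k = i.succ
    · subst k1; rw [tau_succ, tau_of_ne j h10 h11, tau_succ, tau_of_ne j h00 h01]
    rw [tau_of_ne i k0 k1]
    by_cases k2 : k = j.castSucc
    · subst k2; rw [tau_castSucc, tau_of_ne i (Ne.symm h01) (Ne.symm h11)]
    by_cases k3 : k = j.succ
    · subst k3; rw [tau_succ, tau_of_ne i (Ne.symm h00) (Ne.symm h10)]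
    rw [tau_of_ne j k2 k3, tau_of_ne i k0 k1]
  refine LinearMap.ext fun f => ?_
  funext y
  have e1 : (y ∘ tau i) j.castSucc = y j.castSucc := by
    simp only [Function.comp]; rw [tau_of_ne i (Ne.symm h00) (Ne.symm h10)]
  have e2 : (y ∘ tau i) j.succ = y j.succ := by
    simp only [Function.comp]; rw [tau_of_ne i (Ne.symm h01) (Ne.symm h11)]
  have e3 : (y ∘ tau j) i.castSucc = y i.castSucc := by
    simp only [Function.comp]; rw [tau_of_ne j h00 h01]
  have e4 : (y ∘ tau j) i.succ = y i.succ := by
    simp only [Function.comp]; rw [tau_of_ne j h10 h11]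
  simp only [Module.End.mul_apply, R_apply, e1, e2, e3, e4, hcomm]
  split_ifs <;> ring

/-- Weight of a state. -/
noncomputable def mu {n : ℕ} (y : State n) : A := ∏ j, (if y j then qi else q)

lemma mu_comp {n : ℕ} (y : State n) (s : Equiv.Perm (Fin (n + 1))) : mu (y ∘ s) = mu y := by
  simp only [mu, Function.comp]
  exact Equiv.prod_comp s (fun j => if y j then qi else q)

/-- Multiplication by the weight. -/
noncomputable def Mu (n : ℕ) : Op n where
  toFun f := fun y => mu y * f y
  map_add' f g := by funext y; simp [mul_add]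
  map_smul' c f := by funext y; simp only [Pi.smul_apply, smul_eq_mul, RingHom.id_apply]; ring

lemma Mu_apply {n : ℕ} (f : Fn n) (y : State n) : Mu n f y = mu y * f y := rfl

lemma R_Mu {n : ℕ} (i : Fin n) : R i * Mu n = Mu n * R i := by
  refine LinearMap.ext fun f => ?_
  funext y
  simp only [Module.End.mul_apply, R_apply, Mu_apply, mu_comp]
  split_ifs <;> ring

/-- Normalised operator of a letter. -/
noncomputable def cr {n : ℕ} (a : Fin n × Bool) : Op n :=
  if a.2 then qi ^ 2 • R a.1 else q ^ 2 • Ri a.1

lemma cr_true {n : ℕ} (i : Fin n) : cr (i, true) = qi ^ 2 • R i := by simp [cr]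
lemma cr_false {n : ℕ} (i : Fin n) : cr (i, false) = q ^ 2 • Ri i := by simp [cr]

lemma q2_qi2 : q ^ 2 * qi ^ 2 = 1 := by rw [← mul_pow, q_mul_qi, one_pow]
lemma qi2_q2 : qi ^ 2 * q ^ 2 = 1 := by rw [mul_comm, q2_qi2]

lemma cr_cancel {n : ℕ} (i : Fin n) (b : Bool) : cr (i, b) * cr (i, !b) = 1 := by
  cases b
  · rw [Bool.not_false, cr_true, cr_false, smul_mul_smul_comm, q2_qi2, Ri_mul_R, one_smul]
  · rw [Bool.not_true, cr_true, cr_false, smul_mul_smul_comm, qi2_q2, R_mul_Ri, one_smul]

lemma cr_comm {n : ℕ} (i j : Fin n) (b c : Bool) (h : i.val + 1 < j.val) :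
    cr (i, b) * cr (j, c) = cr (j, c) * cr (i, b) := by
  have h0 := R_comm i j h
  have h1 : R i * Ri j = Ri j * R i := by
    rw [Ri, mul_sub, sub_mul, h0, mul_smul_comm, smul_mul_assoc, mul_one, one_mul]
  have h2 : Ri i * R j = R j * Ri i := by
    rw [Ri, mul_sub, sub_mul, h0, mul_smul_comm, smul_mul_assoc, mul_one, one_mul]
  have h3 : Ri i * Ri j = Ri j * Ri i := by
    rw [Ri, sub_mul, h1, mul_sub, smul_mul_assoc, mul_smul_comm, mul_one, one_mul]
  cases b <;> cases c <;>
    simp only [cr_true, cr_false, smul_mul_smul_comm, h0, h1, h2, h3] <;> rw [mul_comm]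

lemma cr_braid {n : ℕ} (i j : Fin n) (h : i.val + 1 = j.val) :
    cr (i, true) * cr (j, true) * cr (i, true) = cr (j, true) * cr (i, true) * cr (j, true) := by
  simp only [cr_true, smul_mul_smul_comm, R_braid i j h]

lemma cr_Mu {n : ℕ} (a : Fin n × Bool) : cr a * Mu n = Mu n * cr a := by
  obtain ⟨i, b⟩ := a
  cases b
  · rw [cr_false, smul_mul_assoc, mul_smul_comm, Ri, sub_mul, mul_sub, R_Mu, smul_mul_assoc,
      mul_smul_comm, one_mul, mul_one]
  · rw [cr_true, smul_mul_assoc, mul_smul_comm, R_Mu]

/-- The operator of a braid word. -/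
noncomputable def rho {n : ℕ} (w : Word n) : Op n := (w.map cr).prod

lemma rho_append {n : ℕ} (u v : Word n) : rho (u ++ v) = rho u * rho v := by
  simp [rho]

lemma rho_nil {n : ℕ} : rho ([] : Word n) = 1 := by simp [rho]

lemma rho_cons {n : ℕ} (a : Fin n × Bool) (w : Word n) : rho (a :: w) = cr a * rho w := by
  simp [rho]

lemma rho_Mu {n : ℕ} (w : Word n) : rho w * Mu n = Mu n * rho w := by
  induction w with
  | nil => simp [rho_nil]
  | cons a w ih => rw [rho_cons, mul_assoc, ih, ← mul_assoc, cr_Mu, mul_assoc]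

/-- The Jones invariant (unnormalised) of the closure of a braid word. -/
noncomputable def T {n : ℕ} (w : Word n) : A := LinearMap.trace A (Fn n) (Mu n * rho w)

lemma trace_eq {n : ℕ} (L : Op n) :
    LinearMap.trace A (Fn n) L = ∑ y : State n, (L (Pi.single y 1)) y := by
  classical
  rw [LinearMap.trace_eq_matrix_trace A (Pi.basisFun A (State n))]
  simp [Matrix.trace]

end Pool.Agent.Helper67.KZ
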