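import Mathlib
import Pool.Agent.Helper67.KZ.RMat

/-!
# Markov invariance and finite type property of `T`
-/

set_option autoImplicit false

namespace Pool.Agent.Helper67.KZ

open PowerSeries

/-! ### Conjugation -/

lemma T_conj {n : ℕ} (u v : Word n) : T (u ++ v) = T (v ++ u) := by
  unfold T
  rw [rho_append, rho_append]
  calc LinearMap.trace A (Fn n) (Mu n * (rho u * rho v))
      = LinearMap.trace A (Fn n) ((Mu n * rho u) * rho v) := by rw [mul_assoc]
    _ = LinearMap.trace A (Fn n) (rho v * (Mu n * rho u)) := LinearMap.trace_mul_comm A _ _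
    _ = LinearMap.trace A (Fn n) (Mu n * (rho v * rho u)) := by
        rw [← mul_assoc, rho_Mu, mul_assoc]

/-! ### Stabilisation -/

/-- Action on the first `n + 1` positions. -/
noncomputable def lift {n : ℕ} (L : Op n) : Op (n + 1) where
  toFun f := fun y => L (fun x => f (Fin.snoc x (y (Fin.last (n + 1))))) (Fin.init y)
  map_add' f g := by
    funext y
    exact congrFun (L.map_add (fun x => f (Fin.snoc x (y (Fin.last (n + 1)))))
      (fun x => g (Fin.snoc x (y (Fin.last (n + 1)))))) (Fin.init y)
  map_smul' c f := by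
    funext y
    exact congrFun (L.map_smul c (fun x => f (Fin.snoc x (y (Fin.last (n + 1)))))) (Fin.init y)

lemma lift_snoc {n : ℕ} (L : Op n) (f : Fn (n + 1)) (x : State n) (c : Bool) :
    lift L f (Fin.snoc x c : State (n + 1)) = L (fun x' => f (Fin.snoc x' c)) x := by
  show L _ (Fin.init (Fin.snoc x c : State (n + 1))) = _
  rw [Fin.init_snoc, Fin.snoc_last]

lemma snoc_surj {n : ℕ} (y : State (n + 1)) :
    ∃ (x : State n) (c : Bool), y = (Fin.snoc x c : State (n + 1)) :=
  ⟨Fin.init y, y (Fin.last (n + 1)), (Fin.snoc_init_self y).symm⟩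

lemma op_ext {n : ℕ} {L L' : Op (n + 1)}
    (h : ∀ (f : Fn (n + 1)) (x : State n) (c : Bool),
      L f (Fin.snoc x c : State (n + 1)) = L' f (Fin.snoc x c)) : L = L' := by
  refine LinearMap.ext fun f => ?_
  funext y
  obtain ⟨x, c, rfl⟩ := snoc_surj y
  exact h f x c

lemma lift_one {n : ℕ} : lift (1 : Op n) = 1 := by
  apply op_ext; intro f x c; rw [lift_snoc]; rfl

lemma lift_mul {n : ℕ} (L L' : Op n) : lift (L * L') = lift L * lift L' := by
  apply op_ext; intro f x c
  have h1 : (fun x' : State n => lift L' f (Fin.snoc x' c : State (n + 1))) =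
      L' (fun x' => f (Fin.snoc x' c)) := by
    funext x'
    rw [lift_snoc]
  rw [lift_snoc, Module.End.mul_apply, Module.End.mul_apply, lift_snoc, h1]

lemma lift_smul {n : ℕ} (a : A) (L : Op n) : lift (a • L) = a • lift L := by
  apply op_ext; intro f x c
  rw [lift_snoc, LinearMap.smul_apply, LinearMap.smul_apply, Pi.smul_apply, Pi.smul_apply,
    lift_snoc]

lemma lift_sub {n : ℕ} (L L' : Op n) : lift (L - L') = lift L - lift L' := by
  apply op_ext; intro f x c
  rw [lift_snoc, LinearMap.sub_apply, LinearMap.sub_apply, Pi.sub_apply, Pi.sub_apply,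
    lift_snoc, lift_snoc]

lemma snoc_comp_tau {n : ℕ} (i : Fin n) (x : State n) (c : Bool) :
    (Fin.snoc x c : State (n + 1)) ∘ tau (Fin.castSucc i) = Fin.snoc (x ∘ tau i) c := by
  funext k
  refine Fin.lastCases ?_ (fun k => ?_) k
  · simp only [Function.comp]
    rw [tau_of_ne, Fin.snoc_last, Fin.snoc_last]
    · intro e; have := congrArg Fin.val e; simp at this; omega
    · intro e; have := congrArg Fin.val e; simp at this; omega
  · rw [Fin.snoc_castSucc]
    simp only [Function.comp]
    by_cases h0 : k = i.castSucc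
    · subst h0
      rw [tau_castSucc, tau_castSucc, Fin.succ_castSucc, Fin.snoc_castSucc]
    by_cases h1 : k = i.succ
    · subst h1
      rw [← Fin.succ_castSucc, tau_succ, Fin.snoc_castSucc, tau_succ]
    rw [tau_of_ne i h0 h1, tau_of_ne, Fin.snoc_castSucc]
    · intro e; exact h0 (Fin.castSucc_injective _ e)
    · intro e; rw [Fin.succ_castSucc] at e; exact h1 (Fin.castSucc_injective _ e)

lemma R_lift {n : ℕ} (i : Fin n) : R (Fin.castSucc i) = lift (R i) := by
  apply op_ext; intro f x c
  rw [lift_snoc, R_apply, R_apply, snoc_comp_tau, Fin.succ_castSucc, Fin.snoc_castSucc,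
    Fin.snoc_castSucc]

lemma Ri_lift {n : ℕ} (i : Fin n) : Ri (Fin.castSucc i) = lift (Ri i) := by
  rw [Ri, Ri, lift_sub, lift_smul, lift_one, R_lift]

lemma cr_lift {n : ℕ} (a : Fin n × Bool) : cr (a.1.castSucc, a.2) = lift (cr a) := by
  obtain ⟨i, b⟩ := a
  cases b
  · simp only [cr_false, lift_smul, Ri_lift]
  · simp only [cr_true, lift_smul, R_lift]

lemma rho_lift {n : ℕ} (w : Word n) :
    rho (w.map fun a => (a.1.castSucc, a.2)) = lift (rho w) := by
  induction w with
  | nil => simp [rho_nil, lift_one]
  | cons a w ih => rw [List.map_cons, rho_cons, ih, rho_cons, lift_mul, cr_lift]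

lemma mu_snoc {n : ℕ} (x : State n) (c : Bool) :
    mu (Fin.snoc x c : State (n + 1)) = mu x * (if c then qi else q) := by
  unfold mu
  rw [Fin.prod_univ_castSucc]
  simp

/-- Partial trace of the R-matrix. -/
lemma R_last {n : ℕ} (x x' : State n) (c : Bool) :
    R (Fin.last n) (Pi.single (Fin.snoc x c : State (n + 1)) 1) (Fin.snoc x' c) =
      (if x (Fin.last n) = c then q else if x (Fin.last n) then q - qi else 0) *
        (Pi.single x 1 : Fn n) x' := by
  have e0 : (Fin.snoc x' c : State (n + 1)) (Fin.last n).castSucc = x' (Fin.last n) := by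
    rw [Fin.snoc_castSucc]
  have e1 : (Fin.snoc x' c : State (n + 1)) (Fin.last n).succ = c := by
    rw [Fin.succ_last, Fin.snoc_last]
  rw [R_apply, e0, e1]
  have key : (Pi.single (Fin.snoc x c : State (n + 1)) (1 : A) : Fn (n + 1)) (Fin.snoc x' c) =
      (Pi.single x 1 : Fn n) x' := by
    by_cases h : x' = x
    · subst h; simp
    · rw [Pi.single_eq_of_ne h, Pi.single_eq_of_ne]
      intro e
      apply h
      have := congrArg Fin.init e
      rwa [Fin.init_snoc, Fin.init_snoc] at this
  by_cases hc : x' (Fin.last n) = c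
  · rw [if_pos hc, key]
    by_cases h : x' = x
    · subst h; rw [if_pos hc]
    · rw [Pi.single_eq_of_ne h]; simp
  · rw [if_neg hc, key]
    have hsw : (Pi.single (Fin.snoc x c : State (n + 1)) (1 : A) : Fn (n + 1))
        ((Fin.snoc x' c : State (n + 1)) ∘ tau (Fin.last n)) = 0 := by
      rw [Pi.single_eq_of_ne]
      intro e
      have := congrFun e (Fin.last (n + 1))
      simp only [Function.comp] at this
      rw [← Fin.succ_last, tau_succ, e0, Fin.succ_last, Fin.snoc_last] at this
      exact hc this
    rw [hsw, zero_add]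
    by_cases h : x' = x
    · subst h
      rw [if_neg hc, Pi.single_eq_same]
      split_ifs <;> ring
    · rw [Pi.single_eq_of_ne h]; simp

lemma one_last {n : ℕ} (x x' : State n) (c : Bool) :
    (Pi.single (Fin.snoc x c : State (n + 1)) (1 : A) : Fn (n + 1)) (Fin.snoc x' c) =
      (Pi.single x 1 : Fn n) x' := by
  by_cases h : x' = x
  · subst h; simp
  · rw [Pi.single_eq_of_ne h, Pi.single_eq_of_ne]
    intro e
    apply h
    have := congrArg Fin.init e
    rwa [Fin.init_snoc, Fin.init_snoc] at this

lemma sum_snoc {n : ℕ} (F : State (n + 1) → A) :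
    ∑ y : State (n + 1), F y = ∑ x : State n, ∑ c : Bool, F (Fin.snoc x c) := by
  rw [← Fintype.sum_prod_type' (f := fun (x : State n) (c : Bool) => F (Fin.snoc x c))]
  refine (Fintype.sum_equiv ((Equiv.prodComm _ _).trans
    (Fin.snocEquiv (fun _ : Fin (n + 2) => Bool))) _ _ ?_).symm
  rintro ⟨x, c⟩
  rfl

lemma trace_stab {n : ℕ} (L : Op n) (S : Op (n + 1)) (κ : Bool → Bool → A)
    (hS : ∀ (x x' : State n) (c : Bool),
      S (Pi.single (Fin.snoc x c : State (n + 1)) 1) (Fin.snoc x' c) =
        κ (x (Fin.last n)) c * (Pi.single x 1 : Fn n) x')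
    (hκ : ∀ a : Bool, ∑ c : Bool, (if c then qi else q) * κ a c = 1) :
    LinearMap.trace A (Fn (n + 1)) (Mu (n + 1) * (lift L * S)) =
      LinearMap.trace A (Fn n) (Mu n * L) := by
  rw [trace_eq, trace_eq, sum_snoc]
  refine Finset.sum_congr rfl fun x _ => ?_
  have : ∀ c : Bool, (Mu (n + 1) * (lift L * S)) (Pi.single (Fin.snoc x c : State (n + 1)) 1)
      (Fin.snoc x c) = ((if c then qi else q) * κ (x (Fin.last n)) c) *
        (mu x * L (Pi.single x 1) x) := by
    intro c
    rw [Module.End.mul_apply, Mu_apply, Module.End.mul_apply, lift_snoc, mu_snoc]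
    have h1 : (fun x' : State n => S (Pi.single (Fin.snoc x c : State (n + 1)) 1)
        (Fin.snoc x' c : State (n + 1))) = κ (x (Fin.last n)) c • (Pi.single x 1 : Fn n) := by
      funext x'
      rw [hS]; rfl
    rw [h1, map_smul, Pi.smul_apply, smul_eq_mul]
    ring
  simp only [this]
  rw [← Finset.sum_mul, hκ, one_mul]
  rfl

lemma T_stab {n : ℕ} (w : Word n) (b : Bool) :
    T (w.map (fun a => (a.1.castSucc, a.2)) ++ [(Fin.last n, b)]) = T w := by
  have hq := q_mul_qi
  unfold T
  rw [rho_append, rho_lift, rho_cons, rho_nil, mul_one]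
  cases b
  · refine trace_stab _ _ (fun a c => q ^ 2 * ((if a = c then q else if a then q - qi else 0)
      - (q - qi))) ?_ ?_
    · intro x x' c
      rw [cr_false, Ri, LinearMap.smul_apply, LinearMap.sub_apply, LinearMap.smul_apply,
        Pi.smul_apply, Pi.sub_apply, Pi.smul_apply, Module.End.one_apply, R_last, one_last]
      simp only [smul_eq_mul]
      ring
    · intro a
      cases a <;> simp
      · linear_combination (q * qi + 1) * hq
      · linear_combination (q * qi + 1) * hq
  · refine trace_stab _ _ (fun a c => qi ^ 2 * (if a = c then q else if a then q - qi else 0))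
      ?_ ?_
    · intro x x' c
      rw [cr_true, LinearMap.smul_apply, Pi.smul_apply, R_last, smul_eq_mul, mul_assoc]
    · intro a
      cases a <;> simp
      · linear_combination (q * qi + 1) * hq
      · linear_combination (q * qi + 1) * hq

/-- Markov invariance of `T`. -/
theorem T_markov {n m : ℕ} {w : Word n} {w' : Word m} (h : Markov n w m w') : T w = T w' := by
  cases h with
  | cancel u v i b =>
    unfold T
    congr 1
    simp only [rho_append, rho_cons, rho_nil, mul_one]
    rw [cr_cancel, mul_one]
  | comm u v i j b c h =>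
    unfold T
    congr 1
    simp only [rho_append, rho_cons, rho_nil, mul_one]
    rw [cr_comm i j b c h]
  | braid u v i j h =>
    unfold T
    congr 1
    simp only [rho_append, rho_cons, rho_nil, mul_one]
    rw [← mul_assoc (cr (i, true)), ← mul_assoc (cr (j, true)), cr_braid i j h]
  | conj u v => exact T_conj u v
  | stab w b => exact (T_stab w b).symm

end Pool.Agent.Helper67.KZ
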