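import Mathlib
import Pool.Agent.Helper67.KZ.Inv

/-!
# The coefficients of `T` are Vassiliev invariants
-/

set_option autoImplicit false

namespace Pool.Agent.Helper67.KZ

open PowerSeries

/-- Operator of a letter of a singular braid word. -/
noncomputable def crS {n : ℕ} (a : Fin n × Option Bool) : Op n :=
  match a with
  | (i, some b) => cr (i, b)
  | (i, none) => cr (i, true) - cr (i, false)

/-- Operator of a singular braid word. -/
noncomputable def rhoS {n : ℕ} (x : SWord n) : Op n := (x.map crS).prod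

lemma rhoS_cons {n : ℕ} (a : Fin n × Option Bool) (x : SWord n) :
    rhoS (a :: x) = crS a * rhoS x := by simp [rhoS]

lemma ext_T {n : ℕ} (k : ℕ) (x : SWord n) : ∀ L : Op n,
    ext (fun w => coeff k (LinearMap.trace A (Fn n) (L * rho w))) x =
      coeff k (LinearMap.trace A (Fn n) (L * rhoS x)) := by
  induction x with
  | nil => intro L; simp [ext, rhoS, rho_nil]
  | cons a x ih =>
    intro L
    obtain ⟨i, _ | b⟩ := a
    · simp only [ext, rho_cons, ← mul_assoc, rhoS_cons, crS]
      rw [ih, ih, ← map_sub, ← map_sub, ← sub_mul, ← mul_sub]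
    · simp only [ext, rho_cons, ← mul_assoc, rhoS_cons, crS]
      rw [ih]

lemma q_sub_qi : q - qi = X * ((q + 1) * qi) := by
  have hq := q_mul_qi
  have : (X : A) = q - 1 := by simp [q]
  rw [this]
  linear_combination (-q) * hq

lemma crS_none {n : ℕ} (i : Fin n) : ∃ E : Op n, crS (i, none) = (X : A) • E := by
  refine ⟨(-((q + 1) * qi * (q + qi))) • R i + (q ^ 2 * ((q + 1) * qi)) • 1, ?_⟩
  have e := q_sub_qi
  simp only [crS, cr_true, cr_false, Ri, smul_sub, smul_add, smul_smul]
  have h1 : X * (-((q + 1) * qi * (q + qi))) = qi ^ 2 - q ^ 2 := by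
    linear_combination (q + qi) * e
  have h2 : X * (q ^ 2 * ((q + 1) * qi)) = q ^ 2 * (q - qi) := by
    linear_combination (-q ^ 2) * e
  rw [h1, h2, sub_smul]
  abel

lemma rhoS_dvd {n : ℕ} (x : SWord n) : ∃ E : Op n, rhoS x = (X ^ doublePoints x : A) • E := by
  induction x with
  | nil => exact ⟨1, by simp [rhoS, doublePoints]⟩
  | cons a x ih =>
    obtain ⟨E, hE⟩ := ih
    obtain ⟨i, _ | b⟩ := a
    · obtain ⟨F, hF⟩ := crS_none i
      refine ⟨F * E, ?_⟩
      rw [rhoS_cons, hF, hE, smul_mul_smul_comm]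
      congr 1
      simp [doublePoints, pow_succ, mul_comm]
    · refine ⟨crS (i, some b) * E, ?_⟩
      rw [rhoS_cons, hE, mul_smul_comm]
      congr 1
      

/-- The coefficient of `X ^ k` in `T` is a Vassiliev invariant of degree at most `k`. -/
theorem T_vassiliev (k : ℕ) : IsVassiliev k (fun _ w => coeff k (T w)) where
  markov n m w w' h _ := by
    simp only [T_markov h]
  finite_type n x _ h := by
    have := ext_T k x (Mu n)
    simp only [T]
    rw [this]
    obtain ⟨E, hE⟩ := rhoS_dvd x
    rw [hE, mul_smul_comm, map_smul, smul_eq_mul]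
    exact PowerSeries.X_pow_dvd_iff.mp (dvd_mul_right _ _) k h

end Pool.Agent.Helper67.KZ
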