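import Mathlib
import Pool.Agent.Helper67.KZ.FinType

/-!
# Symbols of iterated commutators
-/

set_option autoImplicit false

namespace Pool.Agent.Helper67.KZ

open PowerSeries

/-- Congruence of operators modulo `X ^ k`. -/
def Cg {n : ℕ} (k : ℕ) (L L' : Op n) : Prop := ∃ E : Op n, L = L' + (X ^ k : A) • E

namespace Cg

variable {n k : ℕ} {L L' L'' M M' : Op n}

lemma refl (L : Op n) : Cg k L L := ⟨0, by simp⟩

lemma symm (h : Cg k L L') : Cg k L' L := by
  obtain ⟨E, h⟩ := h; exact ⟨-E, by rw [h]; simp⟩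

lemma trans (h : Cg k L L') (h' : Cg k L' L'') : Cg k L L'' := by
  obtain ⟨E, h⟩ := h; obtain ⟨F, h'⟩ := h'
  exact ⟨E + F, by rw [h, h', smul_add]; abel⟩

lemma add (h : Cg k L L') (h' : Cg k M M') : Cg k (L + M) (L' + M') := by
  obtain ⟨E, h⟩ := h; obtain ⟨F, h'⟩ := h'
  exact ⟨E + F, by rw [h, h', smul_add]; abel⟩

lemma sub (h : Cg k L L') (h' : Cg k M M') : Cg k (L - M) (L' - M') := by
  obtain ⟨E, h⟩ := h; obtain ⟨F, h'⟩ := h'
  exact ⟨E - F, by rw [h, h', smul_sub]; abel⟩

lemma mul (h : Cg k L L') (h' : Cg k M M') : Cg k (L * M) (L' * M') := by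
  obtain ⟨E, h⟩ := h; obtain ⟨F, h'⟩ := h'
  refine ⟨E * M + L' * F, ?_⟩
  rw [h, h', smul_add, add_mul, ← smul_mul_assoc, mul_add, mul_add, ← mul_smul_comm]
  abel_nf

lemma smul (c : A) (h : Cg k L L') : Cg k (c • L) (c • L') := by
  obtain ⟨E, h⟩ := h
  exact ⟨c • E, by rw [h, smul_add, smul_comm c]⟩

lemma X_smul (a : ℕ) (h : Cg k L L') : Cg (a + k) ((X ^ a : A) • L) ((X ^ a : A) • L') := by
  obtain ⟨E, h⟩ := h
  exact ⟨E, by rw [h, smul_add, smul_smul, pow_add]⟩

lemma mono {l : ℕ} (hl : l ≤ k) (h : Cg k L L') : Cg l L L' := by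
  obtain ⟨E, h⟩ := h
  refine ⟨(X ^ (k - l) : A) • E, ?_⟩
  rw [h, smul_smul, ← pow_add, Nat.add_sub_cancel' hl]

end Cg

lemma Cg_X {n : ℕ} {a k : ℕ} (h : k ≤ a) (L : Op n) : Cg k ((X ^ a : A) • L) 0 := by
  refine ⟨(X ^ (a - k) : A) • L, ?_⟩
  rw [zero_add, smul_smul, ← pow_add, Nat.add_sub_cancel' h]

/-- Symbol of a group commutator. -/
lemma Cg_comm {n : ℕ} {a b : ℕ} (ha : 1 ≤ a) (hb : 1 ≤ b) {g g' h h' u v : Op n}
    (hg : g * g' = 1) (hg' : g' * g = 1) (hh : h * h' = 1) (hh' : h' * h = 1)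
    (cg : Cg (a + 1) g (1 + (X ^ a : A) • u)) (ch : Cg (b + 1) h (1 + (X ^ b : A) • v)) :
    Cg (a + b + 1) (g * h * g' * h') (1 + (X ^ (a + b) : A) • (u * v - v * u)) := by
  obtain ⟨E, hE⟩ := cg
  obtain ⟨F, hF⟩ := ch
  set U := u + (X : A) • E with hU
  set V := v + (X : A) • F with hV
  have eg : g = 1 + (X ^ a : A) • U := by
    rw [hE, hU, smul_add, smul_smul, ← pow_succ]; abel
  have eh : h = 1 + (X ^ b : A) • V := by
    rw [hF, hV, smul_add, smul_smul, ← pow_succ]; abel
  have comm : g * h - h * g = (X ^ (a + b) : A) • (U * V - V * U) := by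
    rw [eg, eh]
    simp only [mul_add, add_mul, mul_one, one_mul, smul_mul_smul_comm, smul_sub, pow_add]
    rw [mul_comm (X ^ b : A) (X ^ a)]
    abel
  have e1 : g * h * g' * h' = 1 + (X ^ (a + b) : A) • ((U * V - V * U) * (g' * h')) := by
    rw [← smul_mul_assoc, ← comm, sub_mul]
    have : h * g * (g' * h') = 1 := by
      rw [mul_assoc, ← mul_assoc g, hg, one_mul, hh]
    rw [this, ← mul_assoc (g * h)]
    abel_nf
  have g1 : Cg 1 g 1 := by
    rw [eg]
    have := (Cg.refl (k := 1) (1 : Op n)).add (Cg_X ha U)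
    rwa [add_zero] at this
  have h1 : Cg 1 h 1 := by
    rw [eh]
    have := (Cg.refl (k := 1) (1 : Op n)).add (Cg_X hb V)
    rwa [add_zero] at this
  have g'1 : Cg 1 g' 1 := by
    have := (Cg.refl (k := 1) g').mul g1
    rw [hg', mul_one] at this
    exact this.symm
  have h'1 : Cg 1 h' 1 := by
    have := (Cg.refl (k := 1) h').mul h1
    rw [hh', mul_one] at this
    exact this.symm
  have cU : Cg 1 U u := ⟨E, by rw [hU, pow_one]⟩
  have cV : Cg 1 V v := ⟨F, by rw [hV, pow_one]⟩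
  have cc : Cg 1 ((U * V - V * U) * (g' * h')) (u * v - v * u) := by
    have := ((cU.mul cV).sub (cV.mul cU)).mul (g'1.mul h'1)
    simpa using this
  rw [e1]
  exact (Cg.refl _).add (cc.X_smul (a + b))

/-- Permutation operators. -/
noncomputable def PP {n : ℕ} (s : Equiv.Perm (Fin (n + 1))) : Op n where
  toFun f := fun y => f (y ∘ s)
  map_add' _ _ := rfl
  map_smul' _ _ := rfl

lemma PP_apply {n : ℕ} (s : Equiv.Perm (Fin (n + 1))) (f : Fn n) (y : State n) :
    PP s f y = f (y ∘ s) := rfl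

lemma PP_mul {n : ℕ} (s t : Equiv.Perm (Fin (n + 1))) : PP (s * t) = PP s * PP t := rfl

lemma PP_one {n : ℕ} : PP (1 : Equiv.Perm (Fin (n + 1))) = 1 := rfl

lemma R_Cg {n : ℕ} (i : Fin n) : Cg 1 (R i) (PP (tau i)) := by
  have e := q_sub_qi
  refine ⟨{ toFun := fun f y => if y i.castSucc = y i.succ then f y
              else (if y i.castSucc then ((q + 1) * qi) * f y else 0)
            map_add' := ?_
            map_smul' := ?_ }, ?_⟩
  · intro f g; funext y; simp only [Pi.add_apply]; split_ifs <;> ring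
  · intro c f; funext y; simp only [Pi.smul_apply, smul_eq_mul, RingHom.id_apply]
    split_ifs <;> ring
  · refine LinearMap.ext fun f => ?_
    funext y
    rw [LinearMap.add_apply, LinearMap.smul_apply, Pi.add_apply, Pi.smul_apply, R_apply,
      PP_apply, smul_eq_mul, pow_one]
    simp only [LinearMap.coe_mk, AddHom.coe_mk]
    by_cases h : y i.castSucc = y i.succ
    · rw [if_pos h, if_pos h]
      have : y ∘ tau i = y := by
        funext k
        simp only [Function.comp]
        by_cases h0 : k = i.castSucc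
        · subst h0; rw [tau_castSucc, h]
        by_cases h1 : k = i.succ
        · subst h1; rw [tau_succ, h]
        rw [tau_of_ne i h0 h1]
      rw [this, q]; ring
    · rw [if_neg h, if_neg h]
      split_ifs
      · rw [e]; ring
      · ring

lemma q_Cg : ∃ a : A, q = 1 + X * a := ⟨1, by simp [q]⟩

lemma qi_eq : qi = 1 - X * qi := by
  have := q_mul_qi
  have hX : (X : A) = q - 1 := by simp [q]
  rw [hX]; linear_combination this

lemma cr_Cg {n : ℕ} (a : Fin n × Bool) : Cg 1 (cr a) (PP (tau a.1)) := by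
  obtain ⟨i, b⟩ := a
  obtain ⟨E, hE⟩ := R_Cg i
  have hq : q = 1 + X := rfl
  have hqi := qi_eq
  have e := q_sub_qi
  cases b
  · refine ⟨q ^ 2 • E + ((2 : A) + X) • PP (tau i) - (q ^ 2 * ((q + 1) * qi)) • 1, ?_⟩
    rw [cr_false, Ri, hE, e]
    simp only [smul_sub, smul_add, smul_smul, pow_one]
    have h1 : q ^ 2 = 1 + X * ((2 : A) + X) := by rw [hq]; ring
    have h2 : q ^ 2 * X = X * q ^ 2 := mul_comm _ _
    have h3 : q ^ 2 * (X * ((q + 1) * qi)) = X * (q ^ 2 * ((q + 1) * qi)) := by ring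
    rw [h2, h3]
    have h4 : q ^ 2 • PP (tau i) = PP (tau i) + (X * ((2 : A) + X)) • PP (tau i) := by
      rw [h1, add_smul, one_smul]
    rw [h4]
    abel
  · refine ⟨qi ^ 2 • E + (-(qi * (1 + qi))) • PP (tau i), ?_⟩
    rw [cr_true, hE]
    simp only [smul_add, smul_smul, pow_one]
    have h1 : qi ^ 2 = 1 + X * (-(qi * (1 + qi))) := by
      linear_combination (1 + qi) * hqi
    have h2 : qi ^ 2 * X = X * qi ^ 2 := mul_comm _ _
    rw [h2]
    have h4 : qi ^ 2 • PP (tau i) = PP (tau i) + (X * (-(qi * (1 + qi)))) • PP (tau i) := by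
      conv_lhs => rw [h1]
      rw [add_smul, one_smul]
    rw [h4]
    abel

lemma rho_Cg {n : ℕ} (w : Word n) : Cg 1 (rho w) (PP (perm w)) := by
  induction w with
  | nil => rw [rho_nil]; simpa [perm, PP_one] using Cg.refl (k := 1) (1 : Op n)
  | cons a w ih =>
    have : perm (a :: w) = tau a.1 * perm w := by simp [perm]
    rw [rho_cons, this, PP_mul]
    exact (cr_Cg a).mul ih

/-! ### Inverse words -/

/-- The inverse word. -/
def winv {n : ℕ} (w : Word n) : Word n := (w.map fun a => (a.1, !a.2)).reverse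

lemma rho_winv {n : ℕ} (w : Word n) : rho w * rho (winv w) = 1 := by
  induction w with
  | nil => simp [winv, rho_nil]
  | cons a w ih =>
    have : winv (a :: w) = winv w ++ [(a.1, !a.2)] := by simp [winv]
    rw [this, rho_append, rho_cons, rho_cons, rho_nil, mul_one]
    calc cr a * rho w * (rho (winv w) * cr (a.1, !a.2))
        = cr a * (rho w * rho (winv w)) * cr (a.1, !a.2) := by simp only [mul_assoc]
      _ = 1 := by rw [ih, mul_one]; exact cr_cancel a.1 a.2

lemma winv_winv {n : ℕ} (w : Word n) : winv (winv w) = w := by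
  simp [winv, List.map_reverse, Function.comp_def]

lemma rho_winv' {n : ℕ} (w : Word n) : rho (winv w) * rho w = 1 := by
  have := rho_winv (winv w)
  rwa [winv_winv] at this

/-! ### The iterated commutators -/

/-- `y = σ_j²`, then `w ↦ [σ_i², w]`. -/
def cw {n : ℕ} (i j : Fin n) : ℕ → Word n
  | 0 => [(j, true), (j, true)]
  | k + 1 => [(i, true), (i, true)] ++ cw i j k ++ winv [(i, true), (i, true)] ++
      winv (cw i j k)

lemma sq_Cg {n : ℕ} (i : Fin n) :
    Cg 2 (rho [(i, true), (i, true)]) (1 + (X ^ 1 : A) • ((2 : A) • PP (tau i) - (4 : A) • 1)) := by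
  have e := q_sub_qi
  have hqi := qi_eq
  have hq : q = 1 + X := rfl
  obtain ⟨E, hE⟩ := R_Cg i
  have h0 : rho [(i, true), (i, true)] =
      qi ^ 4 • ((q - qi) • R i) + qi ^ 4 • (1 : Op n) := by
    rw [rho_cons, rho_cons, rho_nil, mul_one, cr_true, smul_mul_smul_comm, R_sq, smul_add]
    congr 2 <;> ring
  -- scalar expansions
  have s1 : qi ^ 4 = 1 - 4 * X + X ^ 2 * (4 * qi + 6 * (-1 + X * qi) ^ 2 +
      4 * X * (-1 + X * qi) ^ 3 + X ^ 2 * (-1 + X * qi) ^ 4) := by
    have h2 : qi = 1 + X * (-1 + X * qi) := by linear_combination (1 - X) * hqi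
    calc qi ^ 4 = (1 + X * (-1 + X * qi)) ^ 4 := by rw [← h2]
      _ = _ := by ring
  have s2 : qi ^ 4 * (q - qi) = 2 * X + X ^ 2 * (qi ^ 5 -
      2 * qi * (1 + qi + qi ^ 2 + qi ^ 3 + qi ^ 4)) := by
    rw [e, hq]
    linear_combination (2 * X * (1 + qi + qi ^ 2 + qi ^ 3 + qi ^ 4)) * hqi
  generalize (4 * qi + 6 * (-1 + X * qi) ^ 2 +
      4 * X * (-1 + X * qi) ^ 3 + X ^ 2 * (-1 + X * qi) ^ 4 : A) = a at s1
  generalize (qi ^ 5 - 2 * qi * (1 + qi + qi ^ 2 + qi ^ 3 + qi ^ 4) : A) = b at s2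
  refine ⟨a • 1 + b • R i + (2 : A) • E, ?_⟩
  rw [h0, smul_smul, s2, s1, add_smul (2 * X : A) (X ^ 2 * b) (R i), mul_smul (X ^ 2 : A) b (R i)]
  nth_rewrite 1 [hE]
  simp only [smul_add, smul_smul, pow_one, sub_smul, add_smul, one_smul, smul_sub]
  have e1 : (2 * X * X : A) = X ^ 2 * 2 := by ring
  have e2 : (2 * X : A) = X * 2 := by ring
  have e3 : (4 * X : A) = X * 4 := by ring
  rw [e1, e2, e3]
  abel

/-- The symbols of the iterated commutators. -/
noncomputable def sy {n : ℕ} (i j : Fin n) : ℕ → Op n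
  | 0 => (2 : A) • PP (tau j) - (4 : A) • 1
  | k + 1 => ((2 : A) • PP (tau i) - (4 : A) • 1) * sy i j k -
      sy i j k * ((2 : A) • PP (tau i) - (4 : A) • 1)

lemma cw_Cg {n : ℕ} (i j : Fin n) (k : ℕ) :
    Cg (k + 2) (rho (cw i j k)) (1 + (X ^ (k + 1) : A) • sy i j k) := by
  induction k with
  | zero => exact sq_Cg j
  | succ k ih =>
    have h := Cg_comm (a := 1) (b := k + 1) le_rfl (by omega) (rho_winv [(i, true), (i, true)])
      (rho_winv' _) (rho_winv (cw i j k)) (rho_winv' _) (sq_Cg i) ih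
    rw [cw, rho_append, rho_append, rho_append, sy]
    have e1 : 1 + (k + 1) + 1 = k + 1 + 2 := by ring
    have e2 : 1 + (k + 1) = k + 1 + 1 := by ring
    rw [e1, e2] at h
    exact h

lemma PP_tau_sq {n : ℕ} (i : Fin n) : PP (tau i) * PP (tau i) = (1 : Op n) := by
  rw [← PP_mul, tau_mul_tau, PP_one]

lemma sy_succ {n : ℕ} (i j : Fin n) (k : ℕ) :
    sy i j (k + 1) = (2 : A) • (PP (tau i) * sy i j k - sy i j k * PP (tau i)) := by
  rw [sy]
  simp only [sub_mul, mul_sub, smul_mul_assoc, mul_smul_comm, one_mul, mul_one, smul_sub]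
  abel

lemma sy_odd {n : ℕ} (i j : Fin n) (r : ℕ) :
    sy i j (2 * r + 1) = (4 * 16 ^ r : A) • (PP (tau i) * PP (tau j) - PP (tau j) * PP (tau i)) := by
  induction r with
  | zero =>
    rw [sy_succ, mul_zero, sy]
    simp only [sub_mul, mul_sub, smul_mul_assoc, mul_smul_comm, one_mul, mul_one, smul_sub,
      smul_smul]
    have : (2 * 2 : A) = 4 * 16 ^ 0 := by norm_num
    rw [this]
    abel
  | succ r ih =>
    have e : 2 * (r + 1) + 1 = 2 * r + 1 + 1 + 1 := by ring
    rw [e, sy_succ, sy_succ, ih]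
    have h1 := PP_tau_sq (n := n) i
    generalize PP (tau i) = P at *
    generalize PP (tau j) = Q
    have e1 : P * (P * Q) = Q := by rw [← mul_assoc, h1, one_mul]
    have e2 : (Q * P) * P = Q := by rw [mul_assoc, h1, mul_one]
    have e3 : P * Q * P * P = P * Q := by rw [mul_assoc (P * Q), h1, mul_one]
    have e4 : P * (P * (Q * P)) = Q * P := by rw [← mul_assoc, h1, one_mul]
    simp only [sub_mul, mul_sub, smul_mul_assoc, mul_smul_comm, smul_sub, smul_smul]
    have e5 : (2 * (2 * (4 * 16 ^ r)) : A) = 16 ^ (r + 1) := by rw [pow_succ]; ring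
    rw [e5]
    have e6 : P * (Q * P) = P * Q * P := by rw [mul_assoc]
    rw [e1, e2, e6]
    have e7 : P * (P * Q * P) = Q * P := by rw [← mul_assoc, ← mul_assoc, h1, one_mul]
    rw [e7, e3]
    have e8 : (4 * 16 ^ (r + 1) : A) = 16 ^ (r + 1) + 16 ^ (r + 1) + 16 ^ (r + 1) +
        16 ^ (r + 1) := by ring
    rw [e8]
    simp only [add_smul]
    abel

/-! ### Traces -/

lemma Mu_Cg (n : ℕ) : Cg 1 (Mu n) 1 := by
  have h : ∀ y : State n, ∃ a : A, mu y = 1 + X * a := by
    intro y
    have : (X : A) ∣ mu y - 1 := by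
      rw [PowerSeries.X_dvd_iff, map_sub, mu, map_prod]
      have hqi : constantCoeff qi = 1 := by
        rw [qi_eq]; simp
      have hq : constantCoeff q = 1 := by simp [q]
      have : ∀ j, constantCoeff (if y j then qi else q) = (1 : ℚ) := by
        intro j; split_ifs <;> assumption
      simp [this]
    obtain ⟨a, ha⟩ := this
    exact ⟨a, by linear_combination ha⟩
  choose a ha using h
  refine ⟨{ toFun := fun f y => a y * f y
            map_add' := fun f g => by funext y; simp [mul_add]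
            map_smul' := fun c f => by
              funext y; simp only [Pi.smul_apply, smul_eq_mul, RingHom.id_apply]; ring }, ?_⟩
  refine LinearMap.ext fun f => ?_
  funext y
  rw [LinearMap.add_apply, LinearMap.smul_apply, Pi.add_apply, Pi.smul_apply, Mu_apply, ha,
    Module.End.one_apply]
  simp only [LinearMap.coe_mk, AddHom.coe_mk, smul_eq_mul, pow_one]
  ring

/-- The number of functions fixed by a permutation. -/
def Fix {n : ℕ} (s : Equiv.Perm (Fin (n + 1))) : ℕ :=
  Fintype.card {y : Fin (n + 1) → Bool // y ∘ s = y}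

lemma trace_PP {n : ℕ} (s : Equiv.Perm (Fin (n + 1))) :
    LinearMap.trace A (Fn n) (PP s) = (Fix s : A) := by
  classical
  rw [trace_eq, Fix, Fintype.card_subtype]
  simp only [PP_apply, Pi.single_apply, Finset.sum_boole]

lemma trace_Cg {n : ℕ} {L L' : Op n} (h : Cg 1 L L') :
    constantCoeff (LinearMap.trace A (Fn n) L) = constantCoeff (LinearMap.trace A (Fn n) L') := by
  obtain ⟨E, rfl⟩ := h
  rw [map_add, map_smul, map_add, smul_eq_mul]
  simp

theorem T_diff {n : ℕ} (i j : Fin n) (r : ℕ) (u v : Word n) :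
    (∀ m < 2 * r + 2, coeff m (T (u ++ cw i j (2 * r + 1) ++ v)) = coeff m (T (u ++ v))) ∧
    coeff (2 * r + 2) (T (u ++ cw i j (2 * r + 1) ++ v)) - coeff (2 * r + 2) (T (u ++ v)) =
      4 * 16 ^ r * ((Fix (perm u * (tau i * tau j) * perm v) : ℚ) -
        Fix (perm u * (tau j * tau i) * perm v)) := by
  obtain ⟨E, hE⟩ := cw_Cg i j (2 * r + 1)
  rw [sy_odd] at hE
  set J : Op n := PP (tau i) * PP (tau j) - PP (tau j) * PP (tau i) with hJ
  have key : T (u ++ cw i j (2 * r + 1) ++ v) = T (u ++ v) + X ^ (2 * r + 2) *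
      ((4 * 16 ^ r) * LinearMap.trace A (Fn n) (Mu n * (rho u * J * rho v)) +
        X * LinearMap.trace A (Fn n) (Mu n * (rho u * E * rho v))) := by
    unfold T
    rw [rho_append, rho_append, rho_append, hE]
    simp only [mul_add, add_mul, mul_one, smul_mul_assoc, mul_smul_comm, smul_smul, map_add,
      map_smul, smul_eq_mul]
    ring
  constructor
  · intro m hm
    rw [key, map_add, PowerSeries.coeff_X_pow_mul', if_neg (by omega), add_zero]
  · rw [key, map_add, PowerSeries.coeff_X_pow_mul', if_pos le_rfl, Nat.sub_self,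
      coeff_zero_eq_constantCoeff_apply, add_sub_cancel_left]
    have h1 : Cg 1 (Mu n * (rho u * J * rho v))
        (PP (perm u * (tau i * tau j) * perm v) - PP (perm u * (tau j * tau i) * perm v)) := by
      have := (Mu_Cg n).mul (((rho_Cg u).mul (Cg.refl J)).mul (rho_Cg v))
      rw [one_mul] at this
      refine this.trans ?_
      rw [hJ]
      simp only [PP_mul, mul_sub, sub_mul]
      exact Cg.refl _
    have e4 : constantCoeff (4 * 16 ^ r : A) = (4 * 16 ^ r : ℚ) := by
      rw [map_mul, map_pow, map_ofNat, map_ofNat]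
    rw [map_add, map_mul constantCoeff (4 * 16 ^ r : A), e4, trace_Cg h1, map_sub, trace_PP,
      trace_PP, map_sub, map_natCast, map_natCast, map_mul constantCoeff (X : A)]
    simp

end Pool.Agent.Helper67.KZ
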