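import Mathlib
import Pool.Agent.Helper67.KZ.Symbol
import Pool.Agent.Helper67.KZ.Cycles
import Pool.Agent.Helper67.KZ.KnotCount
import Pool.Agent.Helper11.KZ.AC

/-!
# Words built from blocks, and the swap of a commutator block with a trivial block
-/

set_option autoImplicit false

namespace Pool.Agent.Helper67.KZ

open PowerSeries

/-! ### The non-vanishing of the leading coefficient -/

lemma Fix_conj {n : ℕ} (s g : Equiv.Perm (Fin (n + 1))) : Fix (g * s * g⁻¹) = Fix s := by
  unfold Fix
  refine Fintype.card_congr ?_
  refine (Equiv.subtypeEquiv (Equiv.arrowCongr g.symm (Equiv.refl Bool)) ?_)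
  intro y
  constructor
  · intro h
    funext k
    have := congrFun h (g k)
    simpa [Function.comp] using this
  · intro h
    funext k
    have := congrFun h (g⁻¹ k)
    simpa [Function.comp] using this

lemma fix_diff {n : ℕ} (i j : Fin n) (h : i.val + 1 = j.val) (s t : Equiv.Perm (Fin (n + 1)))
    (hk : ∀ a b : Fin (n + 1), (s * t).SameCycle a b) :
    ((Fix (s * (tau i * tau j) * t) : ℚ) - Fix (s * (tau j * tau i) * t)) ≠ 0 := by
  have hs : ∀ a b : Fin (n + 1), (t * s).SameCycle a b := by
    intro a b
    have := hk (t⁻¹ a) (t⁻¹ b)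
    have e : t * s = t * (s * t) * t⁻¹ := by group
    rw [e, Equiv.Perm.sameCycle_conj]
    exact this
  have e : ∀ α : Equiv.Perm (Fin (n + 1)), Fix (s * α * t) = Fix ((t * s) * α) := by
    intro α
    have : (t * s) * α = t * (s * α * t) * t⁻¹ := by group
    rw [this, Fix_conj]
  rw [e, e]
  have hsucc := succ_eq i j h
  have key := fix_ne (t * s) hs i.castSucc j.castSucc j.succ (ne01 i j h) (ne12 j) (ne02 i j h)
  have e1 : tau i = Equiv.swap i.castSucc j.castSucc := by rw [tau, hsucc]
  have e2 : tau j = Equiv.swap j.castSucc j.succ := rfl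
  rw [e1, e2]
  intro h0
  apply key
  have := sub_eq_zero.mp h0
  exact_mod_cast this

/-! ### Commutator blocks and trivial blocks -/

lemma cw_even {n : ℕ} (i j : Fin n) (k : ℕ) : ∃ m, (cw i j k).length = 2 * m := by
  induction k with
  | zero => exact ⟨1, rfl⟩
  | succ k ih =>
    obtain ⟨m, hm⟩ := ih
    refine ⟨2 + 2 * m, ?_⟩
    simp [cw, winv, hm]
    ring

/-- A trivial word of length `2 m`. -/
def pad {n : ℕ} (i : Fin n) : ℕ → Word n
  | 0 => []
  | m + 1 => (i, true) :: (i, false) :: pad i m

lemma pad_length {n : ℕ} (i : Fin n) (m : ℕ) : (pad i m).length = 2 * m := by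
  induction m with
  | zero => rfl
  | succ m ih => simp [pad, ih]; ring

lemma rho_pad {n : ℕ} (i : Fin n) (m : ℕ) : rho (pad i m) = 1 := by
  induction m with
  | zero => simp [pad, rho_nil]
  | succ m ih =>
    rw [pad, rho_cons, rho_cons, ih, mul_one]
    exact cr_cancel i true

lemma perm_pad {n : ℕ} (i : Fin n) (m : ℕ) : perm (pad i m) = 1 := by
  induction m with
  | zero => simp [pad, perm]
  | succ m ih =>
    have : perm (pad i (m + 1)) = tau i * (tau i * perm (pad i m)) := by simp [pad, perm]
    rw [this, ih, mul_one, tau_mul_tau]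

lemma perm_winv {n : ℕ} (w : Word n) : perm (winv w) = (perm w)⁻¹ := by
  induction w with
  | nil => simp [winv, perm]
  | cons a w ih =>
    have e1 : winv (a :: w) = winv w ++ [(a.1, !a.2)] := by simp [winv]
    have e2 : perm (a :: w) = tau a.1 * perm w := by simp [perm]
    rw [e1, perm_append, ih, e2, mul_inv_rev]
    congr 1

lemma perm_cw {n : ℕ} (i j : Fin n) (k : ℕ) : perm (cw i j k) = 1 := by
  induction k with
  | zero =>
    have : perm (cw i j 0) = tau j * tau j := by simp [cw, perm]
    rw [this, tau_mul_tau]
  | succ k ih =>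
    rw [cw, perm_append, perm_append, perm_append, perm_winv, perm_winv, ih]
    simp

lemma cw_ne_pad {n : ℕ} (i j : Fin n) (k m : ℕ) : cw i j (k + 1) ≠ pad i m := by
  intro h
  cases m with
  | zero => simp [cw, pad] at h
  | succ m => simp [cw, pad] at h

lemma T_pad {n : ℕ} (i : Fin n) (m : ℕ) (u v : Word n) : T (u ++ pad i m ++ v) = T (u ++ v) := by
  unfold T
  rw [rho_append, rho_append, rho_pad, mul_one, ← rho_append]

/-! ### Words from blocks -/

section blocks

variable {n L M : ℕ}

/-- The list of blocks. -/
def blocks (ω : Fin M → Fin L → Fin n × Bool) : List (Word n) :=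
  List.ofFn fun m => List.ofFn (ω m)

/-- The word given by blocks. -/
def W (ω : Fin M → Fin L → Fin n × Bool) : Word n := (blocks ω).flatten

/-- The part before the block `i`. -/
def pre (ω : Fin M → Fin L → Fin n × Bool) (i : Fin M) : Word n := ((blocks ω).take i).flatten

/-- The part after the block `i`. -/
def post (ω : Fin M → Fin L → Fin n × Bool) (i : Fin M) : Word n :=
  ((blocks ω).drop (i + 1)).flatten

lemma blocks_length (ω : Fin M → Fin L → Fin n × Bool) : (blocks ω).length = M := by
  simp [blocks]

lemma blocks_update (ω : Fin M → Fin L → Fin n × Bool) (i : Fin M) (x : Fin L → Fin n × Bool) :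
    blocks (Function.update ω i x) = (blocks ω).set i (List.ofFn x) := by
  apply List.ext_getElem
  · simp [blocks]
  · intro k h1 h2
    rw [List.getElem_set]
    simp only [blocks, List.getElem_ofFn]
    by_cases hk : (i : ℕ) = k
    · rw [if_pos hk]
      have : (⟨k, by simpa [blocks] using h1⟩ : Fin M) = i := Fin.ext hk.symm
      rw [this, Function.update_self]
    · rw [if_neg hk, Function.update_of_ne]
      intro e
      exact hk (by rw [← e])

lemma W_update (ω : Fin M → Fin L → Fin n × Bool) (i : Fin M) (x : Fin L → Fin n × Bool) :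
    W (Function.update ω i x) = pre ω i ++ List.ofFn x ++ post ω i := by
  rw [W, blocks_update, List.set_eq_take_append_cons_drop, if_pos (by rw [blocks_length]; exact i.2)]
  simp [pre, post]

lemma perm_flatten (l : List (Word n)) : perm l.flatten = (l.map perm).prod := by
  induction l with
  | nil => simp [perm]
  | cons a l ih => rw [List.flatten_cons, perm_append, ih, List.map_cons, List.prod_cons]

lemma perm_pre (ω : Fin M → Fin L → Fin n × Bool) (i : Fin M) :
    perm (pre ω i) = (((blocks ω).map perm).take i).prod := by
  rw [pre, perm_flatten, List.map_take]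

lemma perm_post (ω : Fin M → Fin L → Fin n × Bool) (i : Fin M) :
    perm (post ω i) = (((blocks ω).map perm).drop (i + 1)).prod := by
  rw [post, perm_flatten, List.map_drop]

lemma blocks_perm_update (ω : Fin M → Fin L → Fin n × Bool) (i : Fin M)
    (a b : Fin L → Fin n × Bool) (h : perm (List.ofFn a) = perm (List.ofFn b)) :
    (blocks (Function.update ω i a)).map perm = (blocks (Function.update ω i b)).map perm := by
  rw [blocks_update, blocks_update, List.map_set, List.map_set, h]

lemma update_self_eq (ω : Fin M → Fin L → Fin n × Bool) (i : Fin M) (x : Fin L → Fin n × Bool)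
    (h : ω i = x) : W ω = pre ω i ++ List.ofFn x ++ post ω i := by
  rw [← W_update]
  congr 1
  rw [← h, Function.update_eq_self]

lemma pre_update (ω : Fin M → Fin L → Fin n × Bool) (i : Fin M) (x : Fin L → Fin n × Bool) :
    pre (Function.update ω i x) i = pre ω i := by
  rw [pre, pre, blocks_update, List.take_set_of_le le_rfl]

lemma post_update (ω : Fin M → Fin L → Fin n × Bool) (i : Fin M) (x : Fin L → Fin n × Bool) :
    post (Function.update ω i x) i = post ω i := by
  rw [post, post, blocks_update, List.drop_set_of_lt (Nat.lt_succ_self _)]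

end blocks

end Pool.Agent.Helper67.KZ
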