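import Mathlib
import Pool.Agent.Helper67.KZ.Blocks

/-!
# Counting
-/

set_option autoImplicit false

namespace Pool.Agent.Helper67.KZ

open PowerSeries

open Classical in
/-- Anti-concentration of the coefficient of `X ^ (2 k + 2)` on the blocks. -/
lemma swap_bound {n L : ℕ} (i j : Fin n) (h : i.val + 1 = j.val) (k m : ℕ)
    (a b : Fin L → Fin n × Bool) (ha : List.ofFn a = cw i j (2 * k + 1))
    (hb : List.ofFn b = pad i m) (M : ℕ) (u v : Word n) (t : ℕ → ℚ) :
    (((Finset.univ.filter fun ω : Fin M → Fin L → Fin n × Bool =>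
      (IsKnot (u ++ W ω ++ v) ∧ ∀ r < k, coeff (2 * r + 2) (T (u ++ W ω ++ v)) = t r) ∧
        coeff (2 * k + 2) (T (u ++ W ω ++ v)) = t k).card : ℕ) : ℝ) ≤
      ∑ ω ∈ Finset.univ.filter (fun ω : Fin M → Fin L → Fin n × Bool =>
        (IsKnot (u ++ W ω ++ v) ∧ ∀ r < k, coeff (2 * r + 2) (T (u ++ W ω ++ v)) = t r)),
        1 / Real.sqrt ((marked a b ω : ℝ) + 1) := by
  have hab : a ≠ b := by
    intro e
    apply cw_ne_pad i j (2 * k) m
    rw [← ha, ← hb, e]
  have hpa : perm (List.ofFn a) = 1 := by rw [ha, perm_cw]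
  have hpb : perm (List.ofFn b) = 1 := by rw [hb, perm_pad]
  have hperm : perm (List.ofFn a) = perm (List.ofFn b) := by rw [hpa, hpb]
  -- the two words
  have hWa : ∀ (ω : Fin M → Fin L → Fin n × Bool) (l : Fin M),
      u ++ W (Function.update ω l a) ++ v =
        (u ++ pre ω l) ++ cw i j (2 * k + 1) ++ (post ω l ++ v) := by
    intro ω l; rw [W_update, ha]; simp
  have hWb : ∀ (ω : Fin M → Fin L → Fin n × Bool) (l : Fin M),
      u ++ W (Function.update ω l b) ++ v =
        (u ++ pre ω l) ++ pad i m ++ (post ω l ++ v) := by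
    intro ω l; rw [W_update, hb]; simp
  have hTb : ∀ (ω : Fin M → Fin L → Fin n × Bool) (l : Fin M),
      T (u ++ W (Function.update ω l b) ++ v) = T ((u ++ pre ω l) ++ (post ω l ++ v)) := by
    intro ω l; rw [hWb, T_pad]
  have hknot : ∀ (ω : Fin M → Fin L → Fin n × Bool) (l : Fin M),
      perm (u ++ W (Function.update ω l a) ++ v) = perm (u ++ W (Function.update ω l b) ++ v) := by
    intro ω l
    rw [hWa, hWb]
    simp only [perm_append, perm_cw, perm_pad]
  refine anti_conc a b hab M
    (fun ω => IsKnot (u ++ W ω ++ v) ∧ ∀ r < k, coeff (2 * r + 2) (T (u ++ W ω ++ v)) = t r)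
    (fun ω => coeff (2 * k + 2) (T (u ++ W ω ++ v)))
    (fun ω l => 4 * 16 ^ k * ((Fix (perm (u ++ pre ω l) * (tau i * tau j) *
      perm (post ω l ++ v)) : ℚ) - Fix (perm (u ++ pre ω l) * (tau j * tau i) *
      perm (post ω l ++ v)))) ?_ ?_ ?_ ?_ (t k)
  · intro ω l
    have e1 : IsKnot (u ++ W (Function.update ω l a) ++ v) ↔
        IsKnot (u ++ W (Function.update ω l b) ++ v) := by
      unfold IsKnot; rw [hknot]
    have e2 : ∀ r < k, coeff (2 * r + 2) (T (u ++ W (Function.update ω l a) ++ v)) =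
        coeff (2 * r + 2) (T (u ++ W (Function.update ω l b) ++ v)) := by
      intro r hr
      rw [hTb, hWa]
      exact (T_diff i j k _ _).1 _ (by omega)
    constructor
    · rintro ⟨h1, h2⟩
      exact ⟨e1.mp h1, fun r hr => by rw [← e2 r hr]; exact h2 r hr⟩
    · rintro ⟨h1, h2⟩
      exact ⟨e1.mpr h1, fun r hr => by rw [e2 r hr]; exact h2 r hr⟩
  · intro ω l l'
    have e := blocks_perm_update ω l a b hperm
    simp only [perm_append, perm_pre, perm_post, e]
  · intro ω l
    rw [hTb, hWa, pre_update, post_update]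
    exact (T_diff i j k _ _).2
  · intro ω l hG hl
    have hp : perm (u ++ pre ω l) * perm (post ω l ++ v) = perm (u ++ W ω ++ v) := by
      rcases hl with hl | hl
      · rw [update_self_eq ω l a hl]
        simp only [perm_append, hpa, mul_one, mul_assoc]
      · rw [update_self_eq ω l b hl]
        simp only [perm_append, hpb, mul_one, mul_assoc]
    refine mul_ne_zero (by positivity) (fix_diff i j h _ _ ?_)
    rw [hp]
    exact hG.1

/-- Splitting a word into a free part and blocks. -/
def splitEquiv (α : Type) (N' M L : ℕ) :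
    (Fin N' → α) × (Fin M → Fin L → α) ≃ (Fin (N' + M * L) → α) :=
  ((Equiv.refl _).prodCongr ((Equiv.curry (Fin M) (Fin L) α).symm.trans
    (Equiv.arrowCongr finProdFinEquiv (Equiv.refl α)))).trans (Fin.appendEquiv N' (M * L))

lemma splitEquiv_ofFn {n : ℕ} (N' M L : ℕ) (w : Fin N' → Fin n × Bool)
    (ω : Fin M → Fin L → Fin n × Bool) :
    List.ofFn (splitEquiv _ N' M L (w, ω)) = List.ofFn w ++ W ω := by
  have : splitEquiv _ N' M L (w, ω) = Fin.append w (fun x : Fin (M * L) =>
      ω (finProdFinEquiv.symm x).1 (finProdFinEquiv.symm x).2) := rfl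
  rw [this, List.ofFn_fin_append, List.ofFn_mul, W, blocks]
  congr 3
  funext p
  congr 1
  funext r
  have hx : (⟨p * L + r, by
      calc (p : ℕ) * L + r < (p + 1) * L := by
            rw [add_one_mul]; exact Nat.add_lt_add_left r.2 _
        _ ≤ _ := Nat.mul_le_mul_right _ p.2⟩ : Fin (M * L)) = finProdFinEquiv (p, r) := by
    apply Fin.ext
    simp [finProdFinEquiv, mul_comm, add_comm]
  rw [hx, Equiv.symm_apply_apply]

open Classical in
theorem count_bound (n : ℕ) (hn : 2 ≤ n) (k : ℕ) : ∃ C : ℝ, 0 ≤ C ∧ ∀ N : ℕ, 1 ≤ N →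
    ∀ (u v : Word n) (t : ℕ → ℚ),
    (((Finset.univ.filter fun w : Fin N → Fin n × Bool =>
      IsKnot (u ++ List.ofFn w ++ v) ∧
        ∀ r < k, coeff (2 * r + 2) (T (u ++ List.ofFn w ++ v)) = t r).card : ℕ) : ℝ) *
      (Real.sqrt N) ^ k ≤ C * (2 * n : ℝ) ^ N := by
  induction k with
  | zero =>
    refine ⟨1, zero_le_one, ?_⟩
    intro N _ u v t
    rw [pow_zero, mul_one, one_mul]
    have h2 : Fintype.card (Fin N → Fin n × Bool) = (2 * n) ^ N := by
      simp [mul_comm]
    refine le_trans (Nat.cast_le.mpr (Finset.card_le_univ _)) ?_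
    rw [h2]
    push_cast
    exact le_rfl
  | succ k ih =>
    obtain ⟨C, hC0, hC⟩ := ih
    let i : Fin n := ⟨0, by omega⟩
    let j : Fin n := ⟨1, by omega⟩
    have hij : i.val + 1 = j.val := rfl
    obtain ⟨m, hm⟩ := cw_even i j (2 * k + 1)
    obtain ⟨L, hL⟩ : ∃ L, L = (cw i j (2 * k + 1)).length := ⟨_, rfl⟩
    have hfun : ∀ l : Word n, l.length = L → ∃ a : Fin L → Fin n × Bool, List.ofFn a = l := by
      intro l hl
      subst hl
      exact ⟨l.get, List.ofFn_get l⟩
    obtain ⟨a, ha⟩ := hfun (cw i j (2 * k + 1)) hL.symm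
    obtain ⟨b, hb⟩ := hfun (pad i m) (by rw [pad_length, hL, hm])
    have hab : a ≠ b := by
      intro e
      apply cw_ne_pad i j (2 * k) m
      rw [← ha, ← hb, e]
    have hL0 : 1 ≤ L := by
      rcases Nat.eq_zero_or_pos L with h0 | h0
      · exfalso
        subst h0
        exact hab (funext fun x => x.elim0)
      · exact h0
    set Q : ℝ := (2 * n : ℝ) ^ L with hQ
    have hn0 : (0 : ℝ) < 2 * n := by positivity
    have hQ0 : 0 < Q := by positivity
    refine ⟨C * (Real.sqrt 2) ^ k * Real.sqrt (2 * L * Q), by positivity, ?_⟩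
    intro N hN u v t
    -- the split
    obtain ⟨N', M, hNM, hM1, hM2⟩ : ∃ N' M : ℕ, N = N' + M * L ∧ N ≤ 2 * N' ∧
        N ≤ 2 * L * (M + 1) := by
      have hdm := Nat.div_add_mod N (2 * L)
      have hlt := Nat.mod_lt N (show 0 < 2 * L by omega)
      set M := N / (2 * L) with hMdef
      have h1 : 2 * (M * L) ≤ N := by
        calc 2 * (M * L) = 2 * L * M := by ring
          _ ≤ N := Nat.mul_div_le N (2 * L)
      refine ⟨N - M * L, M, by omega, by omega, ?_⟩
      calc N = 2 * L * M + N % (2 * L) := hdm.symm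
        _ ≤ 2 * L * M + 2 * L := by omega
        _ = 2 * L * (M + 1) := by ring
    subst hNM
    have hN'1 : 1 ≤ N' := by omega
    -- counting over pairs
    set P : (Fin N' → Fin n × Bool) → (Fin M → Fin L → Fin n × Bool) → Prop := fun w ω =>
      IsKnot (u ++ (List.ofFn w ++ W ω) ++ v) ∧
        ∀ r < k, coeff (2 * r + 2) (T (u ++ (List.ofFn w ++ W ω) ++ v)) = t r with hP
    have hcount : (((Finset.univ.filter fun w : Fin (N' + M * L) → Fin n × Bool =>
        IsKnot (u ++ List.ofFn w ++ v) ∧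
          ∀ r < k + 1, coeff (2 * r + 2) (T (u ++ List.ofFn w ++ v)) = t r).card : ℕ) : ℝ) =
        ∑ w : Fin N' → Fin n × Bool, (((Finset.univ.filter fun ω :
          Fin M → Fin L → Fin n × Bool => P w ω ∧
            coeff (2 * k + 2) (T (u ++ (List.ofFn w ++ W ω) ++ v)) = t k).card : ℕ) : ℝ) := by
      simp only [Finset.card_filter]
      push_cast
      rw [← Fintype.sum_prod_type' (f := fun (w : Fin N' → Fin n × Bool)
        (ω : Fin M → Fin L → Fin n × Bool) => if P w ω ∧
            coeff (2 * k + 2) (T (u ++ (List.ofFn w ++ W ω) ++ v)) = t k then (1 : ℝ) else 0)]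
      refine (Fintype.sum_equiv (splitEquiv (Fin n × Bool) N' M L) _ _ ?_).symm
      rintro ⟨w, ω⟩
      rw [splitEquiv_ofFn]
      refine if_congr ?_ rfl rfl
      simp only [hP]
      constructor
      · rintro ⟨⟨h1, h2⟩, h3⟩
        refine ⟨h1, fun r hr => ?_⟩
        rcases Nat.lt_succ_iff_lt_or_eq.mp hr with h | h
        · exact h2 r h
        · rw [h]; exact h3
      · rintro ⟨h1, h2⟩
        exact ⟨⟨h1, fun r hr => h2 r (by omega)⟩, h2 k (by omega)⟩
    -- anti-concentration for each fixed `w`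
    have hanti : ∀ w : Fin N' → Fin n × Bool, (((Finset.univ.filter fun ω :
          Fin M → Fin L → Fin n × Bool => P w ω ∧
            coeff (2 * k + 2) (T (u ++ (List.ofFn w ++ W ω) ++ v)) = t k).card : ℕ) : ℝ) ≤
        ∑ ω : Fin M → Fin L → Fin n × Bool, if P w ω then
          1 / Real.sqrt ((marked a b ω : ℝ) + 1) else 0 := by
      intro w
      have := swap_bound i j hij k m a b ha hb M (u ++ List.ofFn w) v t
      simp only [List.append_assoc] at this ⊢
      simp only [hP, List.append_assoc]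
      rw [Finset.sum_filter] at this
      exact this
    -- exchange
    have hexch : ∑ w : Fin N' → Fin n × Bool, ∑ ω : Fin M → Fin L → Fin n × Bool,
        (if P w ω then 1 / Real.sqrt ((marked a b ω : ℝ) + 1) else 0) =
        ∑ ω : Fin M → Fin L → Fin n × Bool, 1 / Real.sqrt ((marked a b ω : ℝ) + 1) *
          (((Finset.univ.filter fun w : Fin N' → Fin n × Bool => P w ω).card : ℕ) : ℝ) := by
      rw [Finset.sum_comm]
      refine Finset.sum_congr rfl fun ω _ => ?_
      rw [Finset.card_filter]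
      push_cast
      rw [Finset.mul_sum]
      refine Finset.sum_congr rfl fun w _ => ?_
      split_ifs <;> simp
    have hinner : ∀ ω : Fin M → Fin L → Fin n × Bool,
        (((Finset.univ.filter fun w : Fin N' → Fin n × Bool => P w ω).card : ℕ) : ℝ) *
          (Real.sqrt N') ^ k ≤ C * (2 * n : ℝ) ^ N' := by
      intro ω
      have := hC N' hN'1 u (W ω ++ v) t
      simp only [hP]
      simpa only [List.append_assoc] using this
    have hsum := sum_marked a b hab M
    have hcardΩ : (Fintype.card (Fin L → Fin n × Bool) : ℝ) = Q := by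
      simp [hQ, mul_comm]
    rw [hcardΩ] at hsum
    rw [hcount]
    set N : ℕ := N' + M * L with hNdef
    set g : (Fin M → Fin L → Fin n × Bool) → ℝ := fun ω =>
      1 / Real.sqrt ((marked a b ω : ℝ) + 1) with hg
    have hg0 : ∀ ω, 0 ≤ g ω := fun ω => by simp only [hg]; positivity
    -- the sum is small
    have hS : (∑ w : Fin N' → Fin n × Bool, (((Finset.univ.filter fun ω :
          Fin M → Fin L → Fin n × Bool => P w ω ∧
            coeff (2 * k + 2) (T (u ++ (List.ofFn w ++ W ω) ++ v)) = t k).card : ℕ) : ℝ)) *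
          (Real.sqrt N') ^ k ≤ C * (2 * n : ℝ) ^ N' * (Q ^ M * Real.sqrt (Q / (M + 1))) := by
      calc _ ≤ (∑ ω : Fin M → Fin L → Fin n × Bool, g ω *
          (((Finset.univ.filter fun w : Fin N' → Fin n × Bool => P w ω).card : ℕ) : ℝ)) *
          (Real.sqrt N') ^ k := by
            refine mul_le_mul_of_nonneg_right ?_ (by positivity)
            rw [← hexch]
            exact Finset.sum_le_sum fun w _ => hanti w
        _ = ∑ ω : Fin M → Fin L → Fin n × Bool, g ω *
          ((((Finset.univ.filter fun w : Fin N' → Fin n × Bool => P w ω).card : ℕ) : ℝ) *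
          (Real.sqrt N') ^ k) := by
            rw [Finset.sum_mul]
            exact Finset.sum_congr rfl fun ω _ => by ring
        _ ≤ ∑ ω : Fin M → Fin L → Fin n × Bool, g ω * (C * (2 * n : ℝ) ^ N') :=
            Finset.sum_le_sum fun ω _ => mul_le_mul_of_nonneg_left (hinner ω) (hg0 ω)
        _ = C * (2 * n : ℝ) ^ N' * ∑ ω : Fin M → Fin L → Fin n × Bool, g ω := by
            rw [← Finset.sum_mul, mul_comm]
        _ ≤ _ := mul_le_mul_of_nonneg_left hsum (by positivity)
    set S : ℝ := ∑ w : Fin N' → Fin n × Bool, (((Finset.univ.filter fun ω :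
          Fin M → Fin L → Fin n × Bool => P w ω ∧
            coeff (2 * k + 2) (T (u ++ (List.ofFn w ++ W ω) ++ v)) = t k).card : ℕ) : ℝ) with hSdef
    have hS0 : 0 ≤ S := Finset.sum_nonneg fun w _ => by positivity
    have hNr : (N : ℝ) ≤ 2 * N' := by exact_mod_cast hM1
    have hNr2 : (N : ℝ) ≤ 2 * L * (M + 1) := by exact_mod_cast hM2
    have hsq1 : Real.sqrt N ≤ Real.sqrt 2 * Real.sqrt N' := by
      rw [← Real.sqrt_mul (by norm_num)]
      exact Real.sqrt_le_sqrt hNr
    have hsq2 : Real.sqrt N * Real.sqrt (Q / (M + 1)) ≤ Real.sqrt (2 * L * Q) := by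
      rw [← Real.sqrt_mul (by positivity)]
      apply Real.sqrt_le_sqrt
      rw [mul_div_assoc', div_le_iff₀ (by positivity)]
      nlinarith
    have hpow : (2 * n : ℝ) ^ N = (2 * n : ℝ) ^ N' * Q ^ M := by
      rw [hQ, ← pow_mul, ← pow_add, hNdef, mul_comm L M]
    calc S * (Real.sqrt N) ^ (k + 1) = S * ((Real.sqrt N) ^ k * Real.sqrt N) := by rw [pow_succ]
      _ ≤ S * ((Real.sqrt 2 * Real.sqrt N') ^ k * Real.sqrt N) := by
          refine mul_le_mul_of_nonneg_left ?_ hS0
          refine mul_le_mul_of_nonneg_right ?_ (Real.sqrt_nonneg _)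
          exact pow_le_pow_left₀ (Real.sqrt_nonneg _) hsq1 k
      _ = (S * (Real.sqrt N') ^ k) * ((Real.sqrt 2) ^ k * Real.sqrt N) := by
          rw [mul_pow]; ring
      _ ≤ (C * (2 * n : ℝ) ^ N' * (Q ^ M * Real.sqrt (Q / (M + 1)))) *
            ((Real.sqrt 2) ^ k * Real.sqrt N) :=
          mul_le_mul_of_nonneg_right hS (by positivity)
      _ = C * (2 * n : ℝ) ^ N' * Q ^ M * (Real.sqrt 2) ^ k *
            (Real.sqrt N * Real.sqrt (Q / (M + 1))) := by ring
      _ ≤ C * (2 * n : ℝ) ^ N' * Q ^ M * (Real.sqrt 2) ^ k * Real.sqrt (2 * L * Q) :=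
          mul_le_mul_of_nonneg_left hsq2 (by positivity)
      _ = C * (Real.sqrt 2) ^ k * Real.sqrt (2 * L * Q) * (2 * n : ℝ) ^ N := by
          rw [hpow]; ring

end Pool.Agent.Helper67.KZ
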